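import Mathlib

/-!
Products of signs over cubes whose sides are chosen so that all columns but one cancel and the last one
telescopes; the counting inequality for a star of such cubes.
-/

set_option autoImplicit false

namespace Pool.Agent.W4h4.CS

open Finset

/-- the weights `1, 1, 2, 4, 8, …` -/
def tau : ℕ → ℕ
  | 0 => 1
  | (i + 1) => 2 ^ i

lemma tau_pos (i : ℕ) : 1 ≤ tau i := by
  cases i with
  | zero => exact le_rfl
  | succ i => exact Nat.one_le_two_pow

lemma tau_sum (m : ℕ) : ∑ i ∈ range (m + 1), tau i = 2 ^ m := by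
  induction m with
  | zero => simp [tau]
  | succ m ih =>
    rw [sum_range_succ, ih]
    show 2 ^ m + 2 ^ m = 2 ^ (m + 1)
    rw [pow_succ]
    ring

/-- the last column telescopes -/
lemma tau_prod (φ : ℤ → ℝ) (hφ : ∀ z, φ z * φ z = 1) (b : ℤ) (m : ℕ) (X : ℤ) :
    ∏ ω ∈ (range (m + 1)).powerset, φ (X + b * ((∑ i ∈ ω, tau i : ℕ) : ℤ)) =
      φ X * φ (X + b * 2 ^ m) := by
  induction m generalizing X with
  | zero =>
    have h0 : (range 1).powerset = {∅, {0}} := by decide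
    rw [zero_add, h0, prod_pair (by decide)]
    simp [tau]
  | succ m ih =>
    have h1 : range (m + 1 + 1) = insert (m + 1) (range (m + 1)) := by
      rw [range_add_one]
    rw [h1, prod_powerset_insert (by simp), ih X]
    have h2 : ∏ t ∈ (range (m + 1)).powerset, φ (X + b * ((∑ i ∈ insert (m + 1) t, tau i : ℕ) : ℤ)) =
        ∏ t ∈ (range (m + 1)).powerset, φ ((X + b * 2 ^ m) + b * ((∑ i ∈ t, tau i : ℕ) : ℤ)) := by
      apply prod_congr rfl
      intro t ht
      rw [mem_powerset] at ht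
      have h3 : m + 1 ∉ t := fun h => by
        have := ht h
        rw [mem_range] at this
        omega
      rw [sum_insert h3]
      congr 1
      have h4 : tau (m + 1) = 2 ^ m := rfl
      rw [h4]
      push_cast
      ring
    rw [h2, ih (X + b * 2 ^ m)]
    have h5 : X + b * 2 ^ m + b * 2 ^ m = X + b * 2 ^ (m + 1) := by
      rw [pow_succ]
      ring
    rw [h5]
    calc φ X * φ (X + b * 2 ^ m) * (φ (X + b * 2 ^ m) * φ (X + b * 2 ^ (m + 1))) =
        φ X * φ (X + b * 2 ^ (m + 1)) * (φ (X + b * 2 ^ m) * φ (X + b * 2 ^ m)) := by ring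
      _ = _ := by rw [hφ, mul_one]

/-- a column with a vanishing side cancels -/
lemma col_kill (φ : ℤ → ℝ) (hφ : ∀ z, φ z * φ z = 1) (S : Finset ℕ) (i : ℕ) (hi : i ∈ S) (g : ℕ → ℤ)
    (hg : g i = 0) (X : ℤ) : ∏ ω ∈ S.powerset, φ (X + ∑ j ∈ ω, g j) = 1 := by
  have h1 : S = insert i (S.erase i) := (insert_erase hi).symm
  rw [h1, prod_powerset_insert (notMem_erase i S), ← prod_mul_distrib]
  apply prod_eq_one
  intro t ht
  rw [mem_powerset] at ht
  have h3 : i ∉ t := fun h => notMem_erase i S (ht h)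
  rw [sum_insert h3, hg, zero_add, hφ]

/-- the product over a line -/
noncomputable def Ln (φ : ℤ → ℝ) (x : ℕ → ℤ) (k : ℕ) (z P : ℤ) : ℝ := ∏ i ∈ range k, φ (z + P * x i)

lemma Ln_sq (φ : ℤ → ℝ) (hφ : ∀ z, φ z * φ z = 1) (x : ℕ → ℤ) (k : ℕ) (z P : ℤ) :
    Ln φ x k z P * Ln φ x k z P = 1 := by
  unfold Ln
  rw [← prod_mul_distrib]
  exact prod_eq_one fun i _ => hφ _

/-- the product over a cube -/
theorem cube (φ : ℤ → ℝ) (hφ : ∀ z, φ z * φ z = 1) (m : ℕ) (x r : ℕ → ℤ) (D b : ℤ)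
    (hr : ∀ j ∈ range (m + 1), r j * (x (m + 1) - x j) = b * (tau j : ℤ)) (z P : ℤ) :
    ∏ ω ∈ (range (m + 1)).powerset,
      Ln φ x (m + 2) (z - D * ∑ j ∈ ω, r j * x j) (P + D * ∑ j ∈ ω, r j) =
      φ (z + P * x (m + 1)) * φ (z + P * x (m + 1) + D * b * 2 ^ m) := by
  unfold Ln
  rw [prod_comm]
  have h1 : ∀ i, ∀ ω : Finset ℕ, z - D * ∑ j ∈ ω, r j * x j + (P + D * ∑ j ∈ ω, r j) * x i =
      (z + P * x i) + ∑ j ∈ ω, D * (r j * (x i - x j)) := by
    intro i ω
    have h2 : ∑ j ∈ ω, D * (r j * (x i - x j)) = D * (∑ j ∈ ω, r j) * x i - D * ∑ j ∈ ω, r j * x j := by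
      rw [mul_assoc, sum_mul, mul_sum, mul_sum, ← sum_sub_distrib]
      apply sum_congr rfl
      intro j _
      ring
    rw [h2]
    ring
  rw [prod_range_succ]
  have h3 : ∏ i ∈ range (m + 1), ∏ ω ∈ (range (m + 1)).powerset,
      φ (z - D * ∑ j ∈ ω, r j * x j + (P + D * ∑ j ∈ ω, r j) * x i) = 1 := by
    apply prod_eq_one
    intro i hi
    simp only [h1]
    exact col_kill φ hφ (range (m + 1)) i hi (fun j => D * (r j * (x i - x j))) (by simp) (z + P * x i)
  rw [h3, one_mul]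
  simp only [h1]
  have h4 : ∀ ω ∈ (range (m + 1)).powerset,
      φ (z + P * x (m + 1) + ∑ j ∈ ω, D * (r j * (x (m + 1) - x j))) =
      φ (z + P * x (m + 1) + (D * b) * ((∑ i ∈ ω, tau i : ℕ) : ℤ)) := by
    intro ω hω
    rw [mem_powerset] at hω
    congr 2
    push_cast
    rw [mul_sum]
    apply sum_congr rfl
    intro j hj
    rw [hr j (hω hj)]
    ring
  rw [prod_congr rfl h4, tau_prod φ hφ]

/-- signs: a product of signs is `-1` only if one of them is -/
lemma one_sub_prod {ι : Type*} (s : Finset ι) (x : ι → ℝ) (hx : ∀ j ∈ s, x j * x j = 1) :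
    1 - ∏ j ∈ s, x j ≤ ∑ j ∈ s, (1 - x j) := by
  classical
  have hpm : ∀ y : ℝ, y * y = 1 → -1 ≤ y ∧ y ≤ 1 := by
    intro y hy
    constructor <;> nlinarith
  have key : (-1 ≤ ∏ j ∈ s, x j ∧ ∏ j ∈ s, x j ≤ 1) ∧ 1 - ∏ j ∈ s, x j ≤ ∑ j ∈ s, (1 - x j) := by
    induction s using Finset.induction_on with
    | empty => simp
    | insert a s ha ih =>
      obtain ⟨⟨h1, h2⟩, h3⟩ := ih (fun j hj => hx j (mem_insert_of_mem hj))
      obtain ⟨h4, h5⟩ := hpm _ (hx a (mem_insert_self a s))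
      rw [prod_insert ha, sum_insert ha]
      refine ⟨⟨?_, ?_⟩, ?_⟩ <;> nlinarith
  exact key.2

/-- **the star inequality**: `F i` signs, `β i ∈ [0, 1]`; if a pair of different signs costs at least `1` -/
theorem star (Q : ℕ) (F β : ℕ → ℝ) (Rs : ℕ → ℕ → ℝ) (hF : ∀ i, F i * F i = 1)
    (hβ0 : ∀ i, 0 ≤ β i) (hβ1 : ∀ i, β i ≤ 1) (hR : ∀ i j, 0 ≤ Rs i j)
    (h : ∀ i ∈ range Q, ∀ j ∈ range Q, (1 - F i * F j) / 2 ≤ β i + β j + Rs i j) (q : ℝ) (hq : 0 < q) :
    (Q : ℝ) ^ 2 / 2 - (∑ i ∈ range Q, F i) ^ 2 / 2 - Q * ((∑ i ∈ range Q, F i) ^ 2 / q + q) / 2 ≤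
      Q * ∑ i ∈ range Q, β i + ∑ i ∈ range Q, ∑ j ∈ range Q, Rs i j := by
  set T : ℝ := ∑ i ∈ range Q, F i with hT
  have hpm : ∀ i, -1 ≤ F i ∧ F i ≤ 1 := fun i => by
    have := hF i
    constructor <;> nlinarith
  -- the improved bound for a pair
  have h1 : ∀ i ∈ range Q, ∀ j ∈ range Q,
      (1 - F i * F j) / 2 ≤ (1 - F i * F j) / 2 * (β i + β j) + Rs i j := by
    intro i hi j hj
    have h2 := h i hi j hj
    have h3 := hR i j
    have e : (1 - F i * F j) / 2 = 0 ∨ (1 - F i * F j) / 2 = 1 := by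
      have h4 : (F i * F j - 1) * (F i * F j + 1) = 0 := by
        have : (F i * F j) * (F i * F j) = 1 := by
          calc (F i * F j) * (F i * F j) = (F i * F i) * (F j * F j) := by ring
            _ = 1 := by rw [hF, hF, one_mul]
        nlinarith
      rcases mul_eq_zero.1 h4 with h5 | h5
      · left; linarith
      · right; linarith
    rcases e with e | e
    · rw [e]; linarith
    · rw [e] at h2 ⊢; linarith
  have h2 : ∑ i ∈ range Q, ∑ j ∈ range Q, (1 - F i * F j) / 2 ≤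
      ∑ i ∈ range Q, ∑ j ∈ range Q, ((1 - F i * F j) / 2 * (β i + β j) + Rs i j) :=
    sum_le_sum fun i hi => sum_le_sum fun j hj => h1 i hi j hj
  have e1 : ∑ i ∈ range Q, ∑ j ∈ range Q, (1 - F i * F j) / 2 = (Q : ℝ) ^ 2 / 2 - T ^ 2 / 2 := by
    have : ∀ i ∈ range Q, ∑ j ∈ range Q, (1 - F i * F j) / 2 = (Q : ℝ) / 2 - F i * T / 2 := by
      intro i _
      rw [← sum_div, sum_sub_distrib, ← mul_sum, ← hT, sum_const, card_range, nsmul_eq_mul, mul_one]
      ring
    rw [sum_congr rfl this, sum_sub_distrib, sum_const, card_range, nsmul_eq_mul, ← sum_div, ← sum_mul, ← hT]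
    ring
  have e2 : ∑ i ∈ range Q, ∑ j ∈ range Q, (1 - F i * F j) / 2 * (β i + β j) =
      Q * ∑ i ∈ range Q, β i - T * ∑ i ∈ range Q, F i * β i := by
    have : ∀ i ∈ range Q, ∑ j ∈ range Q, (1 - F i * F j) / 2 * (β i + β j) =
        Q * β i / 2 + (∑ j ∈ range Q, β j) / 2 - T * (F i * β i) / 2 - F i * (∑ j ∈ range Q, F j * β j) / 2 := by
      intro i _
      have e3 : ∀ j ∈ range Q, (1 - F i * F j) / 2 * (β i + β j) =
          β i / 2 + β j / 2 - F j * (F i * β i) / 2 - F i * (F j * β j) / 2 := by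
        intro j _; ring
      rw [sum_congr rfl e3, sum_sub_distrib, sum_sub_distrib, sum_add_distrib, sum_const, card_range,
        nsmul_eq_mul, ← sum_div, ← sum_div, ← sum_div, ← sum_mul, ← mul_sum, ← hT]
      ring
    rw [sum_congr rfl this, sum_sub_distrib, sum_sub_distrib, sum_add_distrib, sum_const, card_range,
      nsmul_eq_mul, ← sum_div, ← sum_div, ← sum_div, ← mul_sum, ← mul_sum, ← sum_mul, ← hT]
    ring
  have e3 : ∑ i ∈ range Q, ∑ j ∈ range Q, ((1 - F i * F j) / 2 * (β i + β j) + Rs i j) =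
      (Q * ∑ i ∈ range Q, β i - T * ∑ i ∈ range Q, F i * β i) + ∑ i ∈ range Q, ∑ j ∈ range Q, Rs i j := by
    rw [← e2, ← sum_add_distrib]
    apply sum_congr rfl
    intro i _
    rw [sum_add_distrib]
  rw [e1, e3] at h2
  -- the error term
  have h3 : |∑ i ∈ range Q, F i * β i| ≤ Q := by
    refine (abs_sum_le_sum_abs _ _).trans ?_
    calc ∑ i ∈ range Q, |F i * β i| ≤ ∑ i ∈ range Q, (1 : ℝ) := by
          apply sum_le_sum
          intro i _
          rw [abs_mul]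
          have e4 : |F i| ≤ 1 := abs_le.2 (hpm i)
          have e5 : |β i| ≤ 1 := by rw [abs_of_nonneg (hβ0 i)]; exact hβ1 i
          calc |F i| * |β i| ≤ 1 * 1 := mul_le_mul e4 e5 (abs_nonneg _) zero_le_one
            _ = 1 := one_mul 1
      _ = Q := by rw [sum_const, card_range, nsmul_eq_mul, mul_one]
  have h4 : -(T * ∑ i ∈ range Q, F i * β i) ≤ |T| * Q := by
    refine (neg_le_abs _).trans ?_
    rw [abs_mul]
    exact mul_le_mul_of_nonneg_left h3 (abs_nonneg _)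
  have h5 : |T| ≤ (T ^ 2 / q + q) / 2 := by
    have h6 : 0 ≤ (|T| - q) ^ 2 := sq_nonneg _
    have h7 : T ^ 2 = |T| ^ 2 := (sq_abs T).symm
    rw [le_div_iff₀ (by norm_num), ← sub_nonneg]
    have e6 : T ^ 2 / q + q - |T| * 2 = (|T| - q) ^ 2 / q := by
      rw [h7]
      field_simp
      ring
    rw [e6]
    positivity
  have h8 : |T| * Q ≤ Q * ((T ^ 2 / q + q) / 2) := by
    rw [mul_comm]
    exact mul_le_mul_of_nonneg_left h5 (Nat.cast_nonneg _)
  linarith

end Pool.Agent.W4h4.CS
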