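import Pool.Agent.Y880.RS.P3i

/-!
Long progressions in dense sets of primes of a window.
-/

set_option autoImplicit false

namespace Pool.Agent.W4h4.CS

open Finset

theorem ap_good (A : ℕ) (hA : 1 ≤ A) (κ : ℝ) (hκ : 0 < κ) (hκ1 : κ ≤ 1 / 4) (K : ℕ) (hK : 2 ≤ K) :
    ∃ P₁ : ℕ, ∀ P : ℕ, P₁ ≤ P →
    ∀ Good : Finset ℕ, (∀ p ∈ Good, p ∈ Ioc P ⌊(1 + κ) * P⌋₊ ∧ p.Prime ∧ p % A = 1 % A) →
      (5 / 8 : ℝ) * (κ * P / ((A.totient : ℝ) * Real.log P)) ≤ Good.card →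
      ∃ p D : ℕ, 1 ≤ D ∧ A ∣ D ∧ ∀ v < K, p + v * D ∈ Good := by
  have hφ : (1 : ℝ) ≤ A.totient := by exact_mod_cast Nat.totient_pos.2 hA
  have hφ0 : (0 : ℝ) < A.totient := by linarith
  obtain ⟨B, Y₀, hW⟩ := Pool.Agent.Y880.RS.P3.windows K 2 (by omega) (by norm_num) (1 / (4 * (A.totient : ℝ))) 0
    (by positivity)
  refine ⟨⌈2 / κ⌉₊ + ⌈2 * Y₀ / κ⌉₊ + ⌈8 / κ ^ 2⌉₊ + 3, fun P hP Good hG hc => ?_⟩
  have hP1 : 2 / κ ≤ P := (Nat.le_ceil _).trans (Nat.cast_le.2 (by omega))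
  have hP2 : 2 * Y₀ / κ ≤ P := (Nat.le_ceil _).trans (Nat.cast_le.2 (by omega))
  have hP3 : 8 / κ ^ 2 ≤ P := (Nat.le_ceil _).trans (Nat.cast_le.2 (by omega))
  have hP4 : (3 : ℝ) ≤ P := by exact_mod_cast (by omega : 3 ≤ P)
  have hP0 : (0 : ℝ) < P := by linarith
  rw [div_le_iff₀ hκ] at hP1 hP2
  rw [div_le_iff₀ (by positivity)] at hP3
  have hfl : P ≤ ⌊(1 + κ) * P⌋₊ := by
    apply Nat.le_floor
    nlinarith
  obtain ⟨Y, hY⟩ : ∃ Y : ℕ, Y = ⌊(1 + κ) * P⌋₊ - P := ⟨_, rfl⟩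
  have hPY : P + Y = ⌊(1 + κ) * P⌋₊ := by omega
  have hPYr : (P : ℝ) + Y = (⌊(1 + κ) * P⌋₊ : ℝ) := by exact_mod_cast hPY
  have hYup : (Y : ℝ) ≤ κ * P := by
    have := Nat.floor_le (show (0 : ℝ) ≤ (1 + κ) * P by positivity)
    linarith
  have hYlo : κ * P / 2 ≤ (Y : ℝ) := by
    have := Nat.lt_floor_add_one ((1 + κ) * (P : ℝ))
    linarith
  have hYpos : (1 : ℝ) ≤ Y := by linarith
  have hY1 : Y₀ ≤ Y := by
    have : (Y₀ : ℝ) ≤ Y := by linarith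
    exact_mod_cast this
  have hsq : (P : ℝ) + Y ≤ (Y : ℝ) ^ 2 := by
    have h1 : (κ * P / 2) ^ 2 ≤ (Y : ℝ) ^ 2 := pow_le_pow_left₀ (by positivity) hYlo 2
    have h2 : 2 * (P : ℝ) ≤ (κ * P / 2) ^ 2 := by
      have : (κ * (P : ℝ) / 2) ^ 2 = (P * κ ^ 2) * P / 4 := by ring
      rw [this]
      nlinarith
    have h3 : (Y : ℝ) ≤ P := by nlinarith
    linarith
  have hY2 : P + Y ≤ Y ^ 2 := by exact_mod_cast hsq
  by_contra hcon
  push Not at hcon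
  have hE := hW P Y hY1 hY2 Good (by
    intro p hp
    rw [hPY]
    exact (hG p hp).1) (fun p hp => (hG p hp).2.1) Good (Subset.refl _) (by
    rintro p hp ⟨a, d, hd, -, hj, -, -⟩
    have h0 := hj 0 (by omega)
    have h1 := hj 1 (by omega)
    rw [zero_mul, add_zero] at h0
    rw [one_mul] at h1
    have hAd : A ∣ d := by
      have e0 : a ≡ a + d [MOD A] := (hG a h0).2.2.trans (hG _ h1).2.2.symm
      have := (Nat.modEq_iff_dvd' (by omega : a ≤ a + d)).1 e0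
      rwa [Nat.add_sub_cancel_left] at this
    obtain ⟨v, hv, hvn⟩ := hcon a d hd hAd
    exact hvn (hj v hv))
  have hlogP : 0 < Real.log P := Real.log_pos (by linarith)
  have hlogY : Real.log P / 2 ≤ Real.log Y := by
    have h1 : (P : ℝ) ≤ (Y : ℝ) ^ 2 := by linarith
    have h2 := Real.log_le_log hP0 h1
    rw [Real.log_pow] at h2
    push_cast at h2
    linarith
  have h5 : (Y : ℝ) / Real.log Y ≤ κ * P / (Real.log P / 2) := by
    apply div_le_div₀ (by positivity) hYup (by positivity) hlogY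
  have h6 : (1 / (4 * (A.totient : ℝ))) * (Y / Real.log Y) ≤ (1 / (4 * (A.totient : ℝ))) * (κ * P / (Real.log P / 2)) :=
    mul_le_mul_of_nonneg_left h5 (by positivity)
  have h7 := hc.trans (hE.trans h6)
  have e1 : (1 / (4 * (A.totient : ℝ))) * (κ * P / (Real.log P / 2)) =
      (1 / 2) * (κ * P / ((A.totient : ℝ) * Real.log P)) := by
    field_simp
    norm_num
  rw [e1] at h7
  have h8 : 0 < κ * P / ((A.totient : ℝ) * Real.log P) := by positivity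
  linarith

end Pool.Agent.W4h4.CS
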