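import Pool.Agent.W4h4.CA
import Pool.Agent.Y958.U.Mob

/-!
The star inequality in the mean.
-/

set_option autoImplicit false

namespace Pool.Agent.W4h4.CS

open Finset Filter Topology
open Pool.Agent.TH112.BL (Bd)
open Pool.Agent.Y958.TC (NM ind Bd_ind m_shift)

lemma ind01 (V : ℕ → Prop) (n : ℕ) : 0 ≤ ind V n ∧ ind V n ≤ 1 := by
  unfold Pool.Agent.Y958.TC.ind
  split_ifs <;> norm_num

/-- translation by an integer -/
lemma m_tr (μ : NM) (H : ℤ → ℝ) (C : ℝ) (hH : ∀ z, |H z| ≤ C) (t : ℤ) :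
    μ.m (fun n : ℕ => H (n + t)) = μ.m (fun n : ℕ => H n) := by
  rcases le_total 0 t with ht | ht
  · obtain ⟨k, rfl⟩ := Int.eq_ofNat_of_zero_le ht
    rw [← m_shift μ (fun n : ℕ => H n) ⟨C, fun n => hH _⟩ k]
    congr 1
  · obtain ⟨k, hk⟩ := Int.eq_ofNat_of_zero_le (by omega : 0 ≤ -t)
    rw [← m_shift μ (fun n : ℕ => H (n + t)) ⟨C, fun n => hH _⟩ k]
    congr 1
    funext n
    congr 1
    push_cast
    omega

lemma Bd_mul {f g : ℕ → ℝ} (hf : Bd f) (hg : Bd g) : Bd (fun n => f n * g n) := by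
  obtain ⟨C, hC⟩ := hf
  obtain ⟨D, hD⟩ := hg
  refine ⟨C * D, fun n => ?_⟩
  rw [abs_mul]
  exact mul_le_mul (hC n) (hD n) (abs_nonneg _) ((abs_nonneg _).trans (hC n))

theorem mean_star (μ : NM) (V : ℕ → Prop) (Q : ℕ) (F β : ℕ → ℕ → ℝ) (Rs : ℕ → ℕ → ℕ → ℝ)
    (hF : ∀ i n, F i n * F i n = 1) (hβ0 : ∀ i n, 0 ≤ β i n) (hβ1 : ∀ i n, β i n ≤ 1)
    (hR0 : ∀ i j n, 0 ≤ Rs i j n) (C : ℝ) (hR1 : ∀ i j n, Rs i j n ≤ C)
    (h : ∀ n, ∀ i ∈ range Q, ∀ j ∈ range Q, (1 - F i n * F j n) / 2 ≤ β i n + β j n + Rs i j n)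
    (v ρ δ Rb q : ℝ) (hq : 0 < q) (hδ : 0 ≤ δ) (hv : μ.m (ind V) = v)
    (h2 : ∀ i ∈ range Q, ∀ j ∈ range Q, i ≠ j → μ.m (fun n => ind V n * (F i n * F j n)) ≤ δ)
    (hβm : ∀ i ∈ range Q, μ.m (fun n => ind V n * β i n) ≤ ρ)
    (hRm : ∀ i ∈ range Q, ∀ j ∈ range Q, μ.m (fun n => ind V n * Rs i j n) ≤ Rb) :
    ((Q : ℝ) ^ 2 / 2 - Q * q / 2) * v - (1 / 2 + Q / (2 * q)) * (Q * v + Q ^ 2 * δ) ≤
      Q * (Q * ρ) + Q ^ 2 * Rb := by
  have hQ0 : (0 : ℝ) ≤ Q := Nat.cast_nonneg Q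
  have hFb : ∀ i n, |F i n| ≤ 1 := fun i n => by
    have := hF i n
    rw [abs_le]
    constructor <;> nlinarith
  have hVb : Bd (ind V) := Bd_ind V
  have hBF : ∀ i j, Bd (fun n => ind V n * (F i n * F j n)) := fun i j =>
    Bd_mul hVb (Bd_mul ⟨1, hFb i⟩ ⟨1, hFb j⟩)
  have hBβ : ∀ i, Bd (fun n => ind V n * β i n) := fun i =>
    Bd_mul hVb ⟨1, fun n => by rw [abs_of_nonneg (hβ0 i n)]; exact hβ1 i n⟩
  have hBR : ∀ i j, Bd (fun n => ind V n * Rs i j n) := fun i j =>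
    Bd_mul hVb ⟨C, fun n => by rw [abs_of_nonneg (hR0 i j n)]; exact hR1 i j n⟩
  set T2 : ℕ → ℝ := fun n => ∑ i ∈ range Q, ∑ j ∈ range Q, ind V n * (F i n * F j n) with hT2
  set B1 : ℕ → ℝ := fun n => ∑ i ∈ range Q, ind V n * β i n with hB1
  set R1 : ℕ → ℝ := fun n => ∑ i ∈ range Q, ∑ j ∈ range Q, ind V n * Rs i j n with hR1d
  have hBT2 : Bd T2 := Pool.Agent.TH112.BL.Bd.sum _ fun i _ => Pool.Agent.TH112.BL.Bd.sum _ fun j _ => hBF i j
  have hBB1 : Bd B1 := Pool.Agent.TH112.BL.Bd.sum _ fun i _ => hBβ i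
  have hBR1 : Bd R1 := Pool.Agent.TH112.BL.Bd.sum _ fun i _ => Pool.Agent.TH112.BL.Bd.sum _ fun j _ => hBR i j
  have hT2e : ∀ n, T2 n = ind V n * (∑ i ∈ range Q, F i n) ^ 2 := by
    intro n
    rw [hT2]
    simp only
    rw [sq, sum_mul_sum, mul_sum]
    apply sum_congr rfl
    intro i _
    rw [mul_sum]
  have hmT2 : μ.m T2 ≤ Q * v + Q ^ 2 * δ := by
    rw [hT2, μ.sum (range Q) (fun i _ => Pool.Agent.TH112.BL.Bd.sum _ fun j _ => hBF i j)]
    have h3 : ∀ i ∈ range Q, μ.m (fun n => ∑ j ∈ range Q, ind V n * (F i n * F j n)) ≤ v + Q * δ := by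
      intro i hi
      rw [μ.sum (range Q) (fun j _ => hBF i j), ← add_sum_erase _ _ hi]
      apply add_le_add
      · have : (fun n => ind V n * (F i n * F i n)) = ind V := by
          funext n
          rw [hF, mul_one]
        rw [this, hv]
      · calc ∑ j ∈ (range Q).erase i, μ.m (fun n => ind V n * (F i n * F j n)) ≤
              ∑ j ∈ (range Q).erase i, δ :=
              sum_le_sum fun j hj => h2 i hi j (mem_of_mem_erase hj) (ne_of_mem_erase hj).symm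
          _ = ((range Q).erase i).card * δ := by rw [sum_const, nsmul_eq_mul]
          _ ≤ Q * δ := by
              apply mul_le_mul_of_nonneg_right _ hδ
              have := card_erase_le (s := range Q) (a := i)
              rw [card_range] at this
              exact_mod_cast this
    calc ∑ i ∈ range Q, μ.m (fun n => ∑ j ∈ range Q, ind V n * (F i n * F j n)) ≤
        ∑ i ∈ range Q, (v + Q * δ) := sum_le_sum h3
      _ = Q * v + Q ^ 2 * δ := by rw [sum_const, card_range, nsmul_eq_mul]; ring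
  have hmB : μ.m B1 ≤ Q * ρ := by
    rw [hB1, μ.sum (range Q) (fun i _ => hBβ i)]
    calc ∑ i ∈ range Q, μ.m (fun n => ind V n * β i n) ≤ ∑ i ∈ range Q, ρ := sum_le_sum hβm
      _ = Q * ρ := by rw [sum_const, card_range, nsmul_eq_mul]
  have hmR : μ.m R1 ≤ Q ^ 2 * Rb := by
    rw [hR1d, μ.sum (range Q) (fun i _ => Pool.Agent.TH112.BL.Bd.sum _ fun j _ => hBR i j)]
    have h3 : ∀ i ∈ range Q, μ.m (fun n => ∑ j ∈ range Q, ind V n * Rs i j n) ≤ Q * Rb := by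
      intro i hi
      rw [μ.sum (range Q) (fun j _ => hBR i j)]
      calc ∑ j ∈ range Q, μ.m (fun n => ind V n * Rs i j n) ≤ ∑ j ∈ range Q, Rb :=
            sum_le_sum fun j hj => hRm i hi j hj
        _ = Q * Rb := by rw [sum_const, card_range, nsmul_eq_mul]
    calc ∑ i ∈ range Q, μ.m (fun n => ∑ j ∈ range Q, ind V n * Rs i j n) ≤
        ∑ i ∈ range Q, (Q * Rb) := sum_le_sum h3
      _ = Q ^ 2 * Rb := by rw [sum_const, card_range, nsmul_eq_mul]; ring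
  -- the pointwise inequality
  set a : ℝ := (Q : ℝ) ^ 2 / 2 - Q * q / 2 with ha
  set b : ℝ := 1 / 2 + Q / (2 * q) with hb
  have hb0 : 0 ≤ b := by rw [hb]; positivity
  have hpt : ∀ n, a * ind V n + (-b) * T2 n ≤ Q * B1 n + R1 n := by
    intro n
    have h3 := star Q (fun i => F i n) (fun i => β i n) (fun i j => Rs i j n) (fun i => hF i n)
      (fun i => hβ0 i n) (fun i => hβ1 i n) (fun i j => hR0 i j n) (h n) q hq
    have e1 : B1 n = ind V n * ∑ i ∈ range Q, β i n := by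
      rw [hB1]
      simp only
      rw [mul_sum]
    have e2 : R1 n = ind V n * ∑ i ∈ range Q, ∑ j ∈ range Q, Rs i j n := by
      rw [hR1d]
      simp only
      rw [mul_sum]
      apply sum_congr rfl
      intro i _
      rw [mul_sum]
    rw [hT2e, e1, e2]
    have h4 := mul_le_mul_of_nonneg_left h3 (ind01 V n).1
    have e3 : a * ind V n + -b * (ind V n * (∑ i ∈ range Q, F i n) ^ 2) =
        ind V n * ((Q : ℝ) ^ 2 / 2 - (∑ i ∈ range Q, F i n) ^ 2 / 2 -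
          Q * ((∑ i ∈ range Q, F i n) ^ 2 / q + q) / 2) := by
      rw [ha, hb]
      field_simp
      ring
    rw [e3]
    refine h4.trans (le_of_eq ?_)
    ring
  have h5 := μ.mono (φ := fun n => a * ind V n + (-b) * T2 n) (ψ := fun n => Q * B1 n + R1 n)
    ((hVb.cmul a).add (hBT2.cmul (-b))) ((hBB1.cmul Q).add hBR1) hpt
  rw [μ.add _ _ (hVb.cmul a) (hBT2.cmul (-b)), μ.smul _ _ hVb, μ.smul _ _ hBT2, hv,
    μ.add _ _ (hBB1.cmul Q) hBR1, μ.smul _ _ hBB1] at h5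
  have h6 : b * μ.m T2 ≤ b * (Q * v + Q ^ 2 * δ) := mul_le_mul_of_nonneg_left hmT2 hb0
  have h7 : (Q : ℝ) * μ.m B1 ≤ Q * (Q * ρ) := mul_le_mul_of_nonneg_left hmB hQ0
  linarith

end Pool.Agent.W4h4.CS
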