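import Pool.Agent.W4h4.CA

/-!
The geometry of the star of cubes.
-/

set_option autoImplicit false

namespace Pool.Agent.W4h4.CS

open Finset

variable (x : ℕ → ℤ) (m : ℕ)

/-- the sides -/
def rr (j : ℕ) : ℤ := (tau j : ℤ) * ∏ l ∈ (range (m + 1)).erase j, (x (m + 1) - x l)

/-- the product of the differences -/
def Dl : ℤ := ∏ l ∈ range (m + 1), (x (m + 1) - x l)

lemma rr_mul (j : ℕ) (hj : j ∈ range (m + 1)) : rr x m j * (x (m + 1) - x j) = Dl x m * (tau j : ℤ) := by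
  unfold rr Dl
  rw [← mul_prod_erase (range (m + 1)) (fun l => x (m + 1) - x l) hj]
  ring

lemma rr_nonneg (hx : ∀ l ∈ range (m + 1), x l < x (m + 1)) (j : ℕ) : 0 ≤ rr x m j := by
  unfold rr
  apply mul_nonneg (Int.natCast_nonneg _)
  apply prod_nonneg
  intro l hl
  have := hx l (mem_of_mem_erase hl)
  omega

lemma Dl_pos (hx : ∀ l ∈ range (m + 1), x l < x (m + 1)) : 0 < Dl x m := by
  unfold Dl
  apply prod_pos
  intro l hl
  have := hx l hl
  omega

/-- the total side -/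
def R0 : ℤ := ∑ l ∈ range (m + 1), rr x m l

/-- the total shift -/
def W0 : ℤ := ∑ l ∈ range (m + 1), rr x m l * x l

lemma R0_W0 : R0 x m * x (m + 1) - W0 x m = Dl x m * 2 ^ m := by
  unfold R0 W0
  rw [sum_mul, ← sum_sub_distrib]
  have h1 : ∀ l ∈ range (m + 1), rr x m l * x (m + 1) - rr x m l * x l = Dl x m * (tau l : ℤ) := by
    intro l hl
    rw [← mul_sub]
    exact rr_mul x m l hl
  rw [sum_congr rfl h1, ← mul_sum]
  congr 1
  have := tau_sum m
  exact_mod_cast this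

/-- the first coordinate of a vertex -/
def vP (i j : ℕ) (ω : Finset ℕ) : ℤ := i * R0 x m + ((j : ℤ) - i) * ∑ l ∈ ω, rr x m l

/-- the second coordinate of a vertex -/
def vW (i j : ℕ) (ω : Finset ℕ) : ℤ := i * W0 x m + ((j : ℤ) - i) * ∑ l ∈ ω, rr x m l * x l

lemma vP_bd (hx : ∀ l ∈ range (m + 1), x l < x (m + 1)) (Q i j : ℕ) (hi : i < Q) (hj : j < Q) (ω : Finset ℕ)
    (hω : ω ⊆ range (m + 1)) : 0 ≤ vP x m i j ω ∧ vP x m i j ω ≤ Q * R0 x m := by
  have hS0 : 0 ≤ ∑ l ∈ ω, rr x m l := sum_nonneg fun l _ => rr_nonneg x m hx l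
  have hS1 : ∑ l ∈ ω, rr x m l ≤ R0 x m :=
    sum_le_sum_of_subset_of_nonneg hω fun l _ _ => rr_nonneg x m hx l
  obtain ⟨S, hS⟩ : ∃ S, S = ∑ l ∈ ω, rr x m l := ⟨_, rfl⟩
  unfold vP
  rw [← hS] at hS0 hS1 ⊢
  have hi' : (i : ℤ) ≤ Q := by exact_mod_cast hi.le
  have hj' : (j : ℤ) ≤ Q := by exact_mod_cast hj.le
  have hi0 : (0 : ℤ) ≤ i := Int.natCast_nonneg i
  have hj0 : (0 : ℤ) ≤ j := Int.natCast_nonneg j
  have e : (i : ℤ) * R0 x m + ((j : ℤ) - i) * S = i * (R0 x m - S) + j * S := by ring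
  rw [e]
  constructor
  · have := mul_nonneg hi0 (sub_nonneg.2 hS1)
    have := mul_nonneg hj0 hS0
    linarith
  · have h1 := mul_le_mul_of_nonneg_right hi' (sub_nonneg.2 hS1)
    have h2 := mul_le_mul_of_nonneg_right hj' hS0
    nlinarith

variable (φ : ℤ → ℝ) (p D : ℤ)

/-- the line at a vertex -/
noncomputable def Lv (i j : ℕ) (ω : Finset ℕ) (n : ℤ) : ℝ :=
  Ln φ x (m + 2) (n - D * vW x m i j ω) (p + D * vP x m i j ω)

/-- the base lines -/
noncomputable def Bl (i : ℕ) (n : ℤ) : ℝ := Ln φ x (m + 2) (n - D * (i * W0 x m)) (p + D * (i * R0 x m))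

lemma Lv_empty (i j : ℕ) (n : ℤ) : Lv x m φ p D i j ∅ n = Bl x m φ p D i n := by
  unfold Lv Bl vP vW
  simp

lemma Lv_full (i j : ℕ) (n : ℤ) : Lv x m φ p D i j (range (m + 1)) n = Bl x m φ p D j n := by
  unfold Lv Bl
  have e1 : vP x m i j (range (m + 1)) = j * R0 x m := by
    unfold vP
    change (i : ℤ) * R0 x m + ((j : ℤ) - i) * R0 x m = _
    ring
  have e2 : vW x m i j (range (m + 1)) = j * W0 x m := by
    unfold vW
    change (i : ℤ) * W0 x m + ((j : ℤ) - i) * W0 x m = _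
    ring
  rw [e1, e2]

/-- the values in the last column -/
noncomputable def Fv (i : ℕ) (n : ℤ) : ℝ := φ (n + (p * x (m + 1) + i * (D * Dl x m * 2 ^ m)))

theorem cube_ij (hφ : ∀ z, φ z * φ z = 1) (i j : ℕ) (n : ℤ) :
    ∏ ω ∈ (range (m + 1)).powerset, Lv x m φ p D i j ω n = Fv x m φ p D i n * Fv x m φ p D j n := by
  have h := cube φ hφ m x (fun l => ((j : ℤ) - i) * rr x m l) D (((j : ℤ) - i) * Dl x m) (by
    intro l hl
    have := rr_mul x m l hl
    calc ((j : ℤ) - i) * rr x m l * (x (m + 1) - x l) = ((j : ℤ) - i) * (rr x m l * (x (m + 1) - x l)) := by ring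
      _ = ((j : ℤ) - i) * Dl x m * (tau l : ℤ) := by rw [this]; ring) (n - D * (i * W0 x m)) (p + D * (i * R0 x m))
  have hRW := R0_W0 x m
  have e1 : ∀ ω ∈ (range (m + 1)).powerset, Lv x m φ p D i j ω n =
      Ln φ x (m + 2) (n - D * (i * W0 x m) - D * ∑ l ∈ ω, ((j : ℤ) - i) * rr x m l * x l)
        (p + D * (i * R0 x m) + D * ∑ l ∈ ω, ((j : ℤ) - i) * rr x m l) := by
    intro ω _
    unfold Lv vP vW
    have h1 : ∑ l ∈ ω, ((j : ℤ) - i) * rr x m l * x l = ((j : ℤ) - i) * ∑ l ∈ ω, rr x m l * x l := by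
      rw [mul_sum]
      apply sum_congr rfl
      intro l _
      ring
    have h2 : ∑ l ∈ ω, ((j : ℤ) - i) * rr x m l = ((j : ℤ) - i) * ∑ l ∈ ω, rr x m l := by
      rw [mul_sum]
    rw [h1, h2]
    congr 1 <;> ring
  rw [prod_congr rfl e1, h]
  unfold Fv
  congr 2
  · linear_combination D * (i : ℤ) * hRW
  · linear_combination D * (i : ℤ) * hRW

/-- the sum over the vertices which are not corners -/
noncomputable def RR (σ : ℝ) (i j : ℕ) (n : ℤ) : ℝ :=
  ∑ ω ∈ ((range (m + 1)).powerset.erase ∅).erase (range (m + 1)), (1 - σ * Lv x m φ p D i j ω n) / 2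

lemma Lv_sq (hφ : ∀ z, φ z * φ z = 1) (i j : ℕ) (ω : Finset ℕ) (n : ℤ) :
    Lv x m φ p D i j ω n * Lv x m φ p D i j ω n = 1 := Ln_sq φ hφ _ _ _ _

lemma sig_bd {σ y : ℝ} (hσ : σ * σ = 1) (hy : y * y = 1) : 0 ≤ (1 - σ * y) / 2 ∧ (1 - σ * y) / 2 ≤ 1 := by
  have h1 : (σ * y) * (σ * y) = 1 := by
    calc (σ * y) * (σ * y) = (σ * σ) * (y * y) := by ring
      _ = 1 := by rw [hσ, hy, one_mul]
  constructor <;> nlinarith

lemma RR_bd (hφ : ∀ z, φ z * φ z = 1) (σ : ℝ) (hσ : σ * σ = 1) (i j : ℕ) (n : ℤ) :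
    0 ≤ RR x m φ p D σ i j n ∧
    RR x m φ p D σ i j n ≤ ((((range (m + 1)).powerset.erase ∅).erase (range (m + 1))).card : ℝ) := by
  unfold RR
  constructor
  · exact sum_nonneg fun ω _ => (sig_bd hσ (Lv_sq x m φ p D hφ i j ω n)).1
  · calc _ ≤ ∑ ω ∈ ((range (m + 1)).powerset.erase ∅).erase (range (m + 1)), (1 : ℝ) :=
          sum_le_sum fun ω _ => (sig_bd hσ (Lv_sq x m φ p D hφ i j ω n)).2
      _ = _ := by rw [sum_const, nsmul_eq_mul, mul_one]

lemma card_mid : ((((range (m + 1)).powerset.erase ∅).erase (range (m + 1))).card : ℝ) = 2 ^ (m + 1) - 2 := by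
  have h1 : (range (m + 1)) ∈ (range (m + 1)).powerset.erase ∅ := by
    rw [mem_erase]
    refine ⟨?_, mem_powerset.2 (Subset.refl _)⟩
    intro h
    have : (0 : ℕ) ∈ range (m + 1) := mem_range.2 (by omega)
    rw [h] at this
    exact absurd this (notMem_empty 0)
  rw [card_erase_of_mem h1, card_erase_of_mem (mem_powerset.2 (empty_subset _)), card_powerset, card_range]
  have h2 : 2 ≤ 2 ^ (m + 1) := by
    rw [pow_succ]
    have := Nat.one_le_two_pow (n := m)
    omega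
  rw [Nat.sub_sub, Nat.cast_sub h2]
  push_cast
  ring

/-- a pair with different signs costs at least `1` -/
theorem pair (hφ : ∀ z, φ z * φ z = 1) (σ : ℝ) (hσ : σ * σ = 1) (i j : ℕ) (n : ℤ) :
    (1 - Fv x m φ p D i n * Fv x m φ p D j n) / 2 ≤
      (1 - σ * Bl x m φ p D i n) / 2 + (1 - σ * Bl x m φ p D j n) / 2 + RR x m φ p D σ i j n := by
  have h1 := one_sub_prod ((range (m + 1)).powerset) (fun ω => σ * Lv x m φ p D i j ω n) (by
    intro ω _
    calc (σ * Lv x m φ p D i j ω n) * (σ * Lv x m φ p D i j ω n) =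
        (σ * σ) * (Lv x m φ p D i j ω n * Lv x m φ p D i j ω n) := by ring
      _ = 1 := by rw [hσ, Lv_sq x m φ p D hφ, one_mul])
  rw [prod_mul_distrib, prod_const, card_powerset, card_range, pow_succ, mul_comm (2 ^ m) 2, pow_mul, sq, hσ,
    one_pow, one_mul, cube_ij x m φ p D hφ] at h1
  have h2 : ∑ ω ∈ (range (m + 1)).powerset, (1 - σ * Lv x m φ p D i j ω n) =
      (1 - σ * Bl x m φ p D i n) + ((1 - σ * Bl x m φ p D j n) + 2 * RR x m φ p D σ i j n) := by
    have h3 : (range (m + 1)) ∈ (range (m + 1)).powerset.erase ∅ := by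
      rw [mem_erase]
      refine ⟨?_, mem_powerset.2 (Subset.refl _)⟩
      intro h
      have : (0 : ℕ) ∈ range (m + 1) := mem_range.2 (by omega)
      rw [h] at this
      exact absurd this (notMem_empty 0)
    rw [← add_sum_erase _ _ (mem_powerset.2 (empty_subset (range (m + 1)))), Lv_empty,
      ← add_sum_erase _ _ h3, Lv_full]
    congr 2
    unfold RR
    rw [mul_sum]
    apply sum_congr rfl
    intro ω _
    ring
  rw [h2] at h1
  linarith

end Pool.Agent.W4h4.CS
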