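import Pool.Agent.W4h4.CB
import Pool.Agent.W4h4.CC
import Pool.Agent.W4h4.CD

/-!
The explicit bound for the Liouville function at almost all scales.
-/

set_option autoImplicit false

namespace Pool.Agent.W4h4.CS

open Finset Filter Topology
open Pool.Agent.Y958.U
open Pool.Agent.TH112.BL (Bd QD)
open Pool.Agent.TH823.MRS (ExpoSmall FlipAll lam_bdd lam_flip expo_lam)
open Pool.Agent.H376R2.MR (lam)
open Pool.Agent.Y958.TC (NM ind Bd_ind m_class m_sum m_shift um Av Av_bd um_tendsto sS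
  sS_tendsto div_atTop two per_mod sum_inv_large exists_ultra alp alp_f alp_mod Df b1 bad_sum dec QDp)

/-- the Liouville function on the integers -/
noncomputable def phi (z : ℤ) : ℝ := ((lam z.toNat : ℤ) : ℝ)

lemma phi_sq (z : ℤ) : phi z * phi z = 1 := by
  unfold phi
  rw [lam_real, ← mul_pow]
  norm_num

lemma V_emod {V : ℕ → Prop} {A : ℕ} (hV : ∀ n, V (n + A) ↔ V n) (n : ℕ) (w : ℤ) (hw : (A : ℤ) ∣ w) :
    V (((n : ℤ) + w) % (A : ℤ)).toNat ↔ V n := by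
  have h1 : ((n : ℤ) + w) % A = (n : ℤ) % A := by
    obtain ⟨t, rfl⟩ := hw
    rw [Int.add_mul_emod_self_left]
  rw [h1]
  have h2 : ((n : ℤ) % A).toNat = n % A := by
    rw [← Int.natCast_mod, Int.toNat_natCast]
  rw [h2]
  exact V_congr hV (Nat.mod_modEq n A)

lemma vertex_mean (μ : NM) (V : ℕ → Prop) (A : ℕ) (hA : 1 ≤ A) (hV : ∀ n, V (n + A) ↔ V n) {k : ℕ}
    (x : Fin k → ℕ) (p : ℕ) (σ : ℝ) (hσ : σ * σ = 1) (x' : ℕ → ℤ) (hx' : ∀ i : Fin k, x' i = x i) (w : ℤ)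
    (hw : (A : ℤ) ∣ w) :
    μ.m (fun n : ℕ => ind V n * ((1 - σ * Ln phi x' k (n + w) p) / 2)) =
      (μ.m (ind V) - σ * μ.m (Gp lam V x (fun _ => 1) p)) / 2 := by
  obtain ⟨H, hH⟩ : ∃ H : ℤ → ℝ, H = fun z => ind V (z % (A : ℤ)).toNat * ((1 - σ * Ln phi x' k z p) / 2) := ⟨_, rfl⟩
  have hHb : ∀ z, |H z| ≤ 1 := by
    intro z
    rw [hH]
    simp only
    have h1 := sig_bd hσ (Ln_sq phi phi_sq x' k z p)
    have h2 := ind01 V (z % (A : ℤ)).toNat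
    rw [abs_of_nonneg (mul_nonneg h2.1 h1.1)]
    nlinarith
  have e1 : (fun n : ℕ => ind V n * ((1 - σ * Ln phi x' k (n + w) p) / 2)) = fun n : ℕ => H (n + w) := by
    funext n
    rw [hH]
    simp only
    congr 1
    apply ind_at
    exact (V_emod hV n w hw).symm
  have e2 : (fun n : ℕ => H n) =
      fun n => (1 / 2) * ind V n + (-(σ / 2)) * Gp lam V x (fun _ => 1) p n := by
    funext n
    rw [hH]
    simp only
    have h3 : ind V ((n : ℤ) % (A : ℤ)).toNat = ind V n := by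
      apply ind_at
      have := V_emod hV n 0 (dvd_zero _)
      rwa [add_zero] at this
    rw [h3]
    have h4 : Ln phi x' k n p = ∏ i, ((lam (n + p * x i) : ℤ) : ℝ) ^ (1 : ℕ) := by
      unfold Ln
      rw [← Fin.prod_univ_eq_prod_range (fun i => phi ((n : ℤ) + p * x' i)) k]
      apply prod_congr rfl
      intro i _
      rw [pow_one, hx']
      unfold phi
      congr 2
    unfold Gp
    rw [h4]
    ring
  have hG : Bd (Gp lam V x (fun _ => 1) p) := ⟨1, fun n => Gp_le lam lam_bdd V x _ p n⟩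
  rw [e1, m_tr μ H 1 hHb w, e2, μ.add _ _ ((Bd_ind V).cmul _) (hG.cmul _), μ.smul _ _ (Bd_ind V), μ.smul _ _ hG]
  ring

/-- the exceptional scales of the two point theorem, all shifts together -/
lemma two_all (hAVC : S_AVC) (V : ℕ → Prop) (A : ℕ) (hA : 1 ≤ A) (hV : ∀ n, V (n + A) ↔ V n) (δ : ℝ) (hδ : 0 < δ) :
    ∃ E' : Set ℕ, LZ E' ∧ ∀ R : ℕ, 1 ≤ R → ∃ N₀ : ℕ, ∀ n ∈ E2 lam V A R δ, N₀ ≤ n → n ∈ E' := by
  obtain ⟨F, hF, h⟩ := diag (fun R => E2 lam V A (R + 1) δ)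
    (fun R => E2_LZ hAVC lam lam_bdd lam_flip expo_lam V A (R + 1) hA hV (by omega) δ hδ)
  refine ⟨F, hF, fun R hR => ?_⟩
  obtain ⟨N₀, hN₀⟩ := h (R - 1)
  rw [Nat.sub_add_cancel hR] at hN₀
  exact ⟨N₀, hN₀⟩

lemma numeric {v c Z g : ℝ} {q : ℕ} (hv : 0 < v) (hg : g = 1 - c * Z) (hg0 : 0 < g) (hZ : 1 ≤ Z) (hq : 12 / g ≤ q)
    (hq1 : 1 ≤ q) (δ κ : ℝ) (hδ : δ = g * v / (8 * (1 + q))) (hκ : 0 ≤ κ) (hκ1 : κ ≤ g * v / (24 * Z))
    (h : (((q ^ 2 : ℕ) : ℝ) ^ 2 / 2 - ((q ^ 2 : ℕ) : ℝ) * q / 2) * v -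
      (1 / 2 + ((q ^ 2 : ℕ) : ℝ) / (2 * q)) * (((q ^ 2 : ℕ) : ℝ) * v + ((q ^ 2 : ℕ) : ℝ) ^ 2 * δ) ≤
      ((q ^ 2 : ℕ) : ℝ) * (((q ^ 2 : ℕ) : ℝ) * ((c * v + 3 * κ) / 2)) +
        ((q ^ 2 : ℕ) : ℝ) ^ 2 * ((Z - 1) * ((c * v + 3 * κ) / 2))) : False := by
  have hq0 : (1 : ℝ) ≤ q := by exact_mod_cast hq1
  have hqp : (0 : ℝ) < q := by linarith
  push_cast at h
  -- divide by `q ^ 4 / 2`
  have h1 : (1 + q) * δ = g * v / 8 := by
    rw [hδ]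
    field_simp
  have h2 : 3 * Z * κ ≤ g * v / 8 := by
    have := mul_le_mul_of_nonneg_left hκ1 (by linarith : 0 ≤ 3 * Z)
    refine this.trans (le_of_eq ?_)
    field_simp
    norm_num
  have h3 : 12 ≤ g * q := by
    rw [div_le_iff₀ hg0] at hq
    linarith
  have e1 : (((q : ℝ) ^ 2) ^ 2 / 2 - (q : ℝ) ^ 2 * q / 2) * v -
      (1 / 2 + (q : ℝ) ^ 2 / (2 * q)) * ((q : ℝ) ^ 2 * v + ((q : ℝ) ^ 2) ^ 2 * δ) =
      (q : ℝ) ^ 4 / 2 * ((1 - 1 / q) * v - (1 + q) * v / q ^ 2 - (1 + q) * δ) := by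
    field_simp
    ring
  have e2 : (q : ℝ) ^ 2 * ((q : ℝ) ^ 2 * ((c * v + 3 * κ) / 2)) + ((q : ℝ) ^ 2) ^ 2 * ((Z - 1) * ((c * v + 3 * κ) / 2)) =
      (q : ℝ) ^ 4 / 2 * (Z * (c * v + 3 * κ)) := by ring
  rw [e1, e2] at h
  have h4 := le_of_mul_le_mul_left h (by positivity)
  rw [h1] at h4
  have h5 : (1 + (q : ℝ)) * v / q ^ 2 ≤ 2 / q * v := by
    rw [div_mul_eq_mul_div, div_le_div_iff₀ (by positivity) hqp]
    have : (1 + (q : ℝ)) * v * q ≤ (2 * q) * v * q := by gcongr; linarith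
    nlinarith
  have h6 : (3 / (q : ℝ)) * v ≤ g / 4 * v := by
    apply mul_le_mul_of_nonneg_right _ hv.le
    rw [div_le_iff₀ hqp]
    linarith
  have e3 : (1 - 1 / (q : ℝ)) * v - 2 / q * v = v - (3 / (q : ℝ)) * v := by
    field_simp
    ring
  have e4 : Z * (c * v + 3 * κ) = (1 - g) * v + 3 * Z * κ := by rw [hg]; ring
  rw [e4] at h4
  have h7 : 0 < g * v := by positivity
  nlinarith

end Pool.Agent.W4h4.CS
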