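import Pool.Agent.W4h4.CE

/-!
The explicit bound for the Liouville function at almost all scales: the main argument.
-/

set_option autoImplicit false

namespace Pool.Agent.W4h4.CS

open Finset Filter Topology
open Pool.Agent.Y958.U
open Pool.Agent.TH112.BL (Bd QD)
open Pool.Agent.TH823.MRS (ExpoSmall FlipAll lam_bdd lam_flip expo_lam)
open Pool.Agent.H376R2.MR (lam)
open Pool.Agent.Y958.TC (NM ind Bd_ind m_class m_sum m_shift um Av Av_bd um_tendsto sS
  sS_tendsto div_atTop two per_mod sum_inv_large exists_ultra alp alp_f alp_mod Df b1 bad_sum dec QDp)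

theorem main' (hAVC : S_AVC) (hPW : S_PW) (m : ℕ) (c : ℝ) (hc0 : 0 < c) (hc : c * (2 ^ (m + 1) - 1) < 1)
    (V : ℕ → Prop) (A : ℕ) (hA : 1 ≤ A) (hV : ∀ n, V (n + A) ↔ V n) (hv : 0 < dv V A)
    (x : Fin (m + 2) → ℕ) (hx : StrictMono x) :
    LZ {N | (1 - c) * dv V A < |Av N (fun n => ind V n * ∏ i, ((lam (n + x i) : ℤ) : ℝ) ^ (1 : ℕ))|} := by
  classical
  by_contra hcon
  obtain ⟨e, he⟩ : ∃ e : Fin (m + 2) → ℕ, e = fun _ => 1 := ⟨_, rfl⟩
  have hcon' : ¬ LZ {N | (1 - c) * dv V A < |Av N (fun n => ind V n * ∏ i, ((lam (n + x i) : ℤ) : ℝ) ^ e i)|} := by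
    rw [he]; exact hcon
  clear hcon
  have hf := lam_flip
  have hb := lam_bdd
  set ψ : ℕ → ℝ := fun n => ind V n * ∏ i, ((lam (n + x i) : ℤ) : ℝ) ^ e i with hψd
  set E : Set ℕ := {N | (1 - c) * dv V A < |Av N ψ|} with hEd
  set v : ℝ := dv V A with hvd
  -- geometry
  obtain ⟨x', hx'⟩ : ∃ x' : ℕ → ℤ, x' = fun i => if h : i < m + 2 then (x ⟨i, h⟩ : ℤ) else 0 := ⟨_, rfl⟩
  have hx'1 : ∀ i : Fin (m + 2), x' i = x i := by
    intro i
    rw [hx']
    simp only
    rw [dif_pos i.2]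
  have hx'2 : ∀ l ∈ range (m + 1), x' l < x' (m + 1) := by
    intro l hl
    rw [mem_range] at hl
    rw [hx']
    simp only
    rw [dif_pos (by omega : l < m + 2), dif_pos (by omega : m + 1 < m + 2)]
    have : x ⟨l, by omega⟩ < x ⟨m + 1, by omega⟩ := hx (by
      rw [Fin.lt_def]
      exact hl)
    exact_mod_cast this
  have hx'0 : ∀ l, 0 ≤ x' l := by
    intro l
    rw [hx']
    simp only
    split_ifs
    · exact Int.natCast_nonneg _
    · exact le_rfl
  -- constants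
  set Z : ℝ := 2 ^ (m + 1) - 1 with hZ
  have hZ1 : 1 ≤ Z := by
    have : (2 : ℝ) ≤ 2 ^ (m + 1) := by
      rw [pow_succ]
      have := one_le_pow₀ (one_le_two : (1 : ℝ) ≤ 2) (n := m)
      linarith
    rw [hZ]; linarith
  set g : ℝ := 1 - c * Z with hg
  have hg0 : 0 < g := by rw [hg]; linarith
  have hc1 : c < 1 := by nlinarith
  have hg1 : g < 1 := by rw [hg]; nlinarith
  have hv1 : v ≤ 1 := by
    rw [hvd]
    unfold dv
    have hA0 : (0 : ℝ) < A := by exact_mod_cast hA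
    rw [div_le_one hA0]
    exact_mod_cast (card_filter_le _ _).trans (by rw [card_range])
  obtain ⟨q, hq⟩ : ∃ q : ℕ, q = ⌈12 / g⌉₊ + 1 := ⟨_, rfl⟩
  have hqg : 12 / g ≤ q := (Nat.le_ceil _).trans (Nat.cast_le.2 (by omega))
  have hq1 : 1 ≤ q := by omega
  have hq0 : (1 : ℝ) ≤ q := by exact_mod_cast hq1
  obtain ⟨Q, hQ⟩ : ∃ Q : ℕ, Q = q ^ 2 := ⟨_, rfl⟩
  set δ : ℝ := g * v / (8 * (1 + q)) with hδ
  have hδ0 : 0 < δ := by positivity
  set κ : ℝ := g * v / (24 * Z) with hκd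
  have hκ0 : 0 < κ := by positivity
  have hκ1 : κ ≤ 1 / 4 := by
    rw [hκd, div_le_iff₀ (by positivity)]
    have : g * v ≤ 1 * 1 := mul_le_mul hg1.le hv1 hv.le zero_le_one
    nlinarith
  obtain ⟨K, hK⟩ : ∃ K : ℕ, K = (Q * R0 x' m).toNat + 2 := ⟨_, rfl⟩
  obtain ⟨P₁, hP₁⟩ := ap_good A hA κ hκ0 hκ1 K (by omega)
  obtain ⟨P₀, hP₀⟩ := hPW A hA κ hκ0 (by linarith)
  have hφA : (1 : ℝ) ≤ A.totient := by exact_mod_cast Nat.totient_pos.2 hA
  set ε : ℝ := κ ^ 2 / (64 * (A.totient : ℝ)) with hεd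
  have hε0 : 0 < ε := by positivity
  haveI : NeZero A := ⟨by omega⟩
  obtain ⟨E', hE'Z, hE'R⟩ := two_all hAVC V A hA hV δ hδ0
  obtain ⟨ε', hε', I₀, hAv⟩ := hAVC E E' hcon' hE'Z
  set η : ℝ := (ε / 30) * ε / 3 with hη
  have hη0 : 0 < η := by positivity
  have hlim : Tendsto (fun i : ℕ => (i : ℝ) / 2 ^ i) atTop (𝓝 0) := by
    have := tendsto_pow_const_div_const_pow_of_one_lt 1 (show (1 : ℝ) < 2 by norm_num)
    simpa using this
  have hlim2 : Tendsto (fun i : ℕ => (6 * (m + 2 : ℕ) : ℝ) / 2 ^ i) atTop (𝓝 0) := by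
    have h1 := tendsto_pow_const_div_const_pow_of_one_lt 0 (show (1 : ℝ) < 2 by norm_num)
    have h2 := h1.const_mul (6 * (m + 2 : ℕ) : ℝ)
    simp only [pow_zero, mul_zero] at h2
    refine h2.congr fun i => ?_
    ring
  obtain ⟨I₂, hI₂⟩ := eventually_atTop.1 (hlim.eventually_lt_const hη0)
  obtain ⟨I₃, hI₃⟩ := eventually_atTop.1 (hlim2.eventually_lt_const hε0)
  set i₀ : ℕ := I₀ + I₂ + I₃ + P₀ + P₁ + A + 1 with hi₀
  set cW : ℕ := 2 * (1 + ∑ i, x i) with hcW
  set B : ℝ := cW * Real.log (Fintype.card (SignType × ZMod A)) / η with hBd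
  have hB0 : 0 ≤ B := by
    rw [hBd]
    have : 0 ≤ Real.log (Fintype.card (SignType × ZMod A)) := Real.log_natCast_nonneg _
    positivity
  obtain ⟨i₁, hi₁, hS⟩ := sum_inv_large i₀ (by omega) (3 * B / ε')
  set S : ℝ := ∑ i ∈ Ico i₀ i₁, (1 : ℝ) / i with hSd
  obtain ⟨𝓤, hU, hmem⟩ := exists_ultra {M : ℕ | M ∉ E' ∧ ε' * S ≤
      ∑ i ∈ Ico i₀ i₁, (1 : ℝ) / i * ∑ p ∈ QQ i, Real.log p / 2 ^ i * (if M / p ∈ E then 1 else 0)}
    (fun M₀ => by
      obtain ⟨M, hM1, hM2, hM3⟩ := hAv i₀ i₁ (by omega) hi₁ M₀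
      exact ⟨M, hM1, hM2, hM3⟩)
  have hψ : ∀ n, |ψ n| ≤ 1 := by
    intro n
    have h1 : |ind V n| ≤ 1 := by unfold ind; split_ifs <;> norm_num
    rw [hψd]
    simp only
    rw [abs_mul]
    calc |ind V n| * |∏ i, ((lam (n + x i) : ℤ) : ℝ) ^ e i| ≤ 1 * 1 :=
          mul_le_mul h1 (prod_le lam hb e _) (abs_nonneg _) zero_le_one
      _ = 1 := one_mul 1
  have hw0 : ∀ i, ∀ p ∈ QD i (i + 1), 0 ≤ Real.log (p : ℝ) / 2 ^ i := fun i p _ =>
    div_nonneg (Real.log_natCast_nonneg _) (by positivity)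
  have hbad := bad_sum (um 𝓤 hU) (alp lam A) cW η hη0 i₀ i₁ (by omega)
  -- a good scale with a prime `p₀` such that `M / p₀` is exceptional
  have hex : ∃ i ∈ Ico i₀ i₁, Df (um 𝓤 hU) (alp lam A) b1 () cW i ≤ η * 2 ^ i / i ∧
      ∃ p₀ ∈ QD i (i + 1), {M : ℕ | M / p₀ ∈ E} ∈ (𝓤 : Filter ℕ) := by
    by_contra hno
    push Not at hno
    have hev : ∀ᶠ M in (𝓤 : Filter ℕ), ∀ i ∈ (Ico i₀ i₁).filter
        (fun i => Df (um 𝓤 hU) (alp lam A) b1 () cW i ≤ η * 2 ^ i / i), ∀ p ∈ QD i (i + 1), M / p ∉ E := by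
      rw [Filter.eventually_all_finset]
      intro i hi
      rw [mem_filter] at hi
      rw [Filter.eventually_all_finset]
      intro p hp
      have h1 := hno i hi.1 hi.2 p hp
      exact Ultrafilter.compl_mem_iff_notMem.2 h1
    obtain ⟨M, hM1, hM2⟩ := (hev.and hmem).exists
    obtain ⟨-, hM3⟩ := hM2
    have h4 : ∑ i ∈ Ico i₀ i₁, (1 : ℝ) / i * ∑ p ∈ QQ i, Real.log p / 2 ^ i *
        (if M / p ∈ E then 1 else 0) ≤ 3 * B := by
      rw [← sum_filter_add_sum_filter_not (Ico i₀ i₁)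
        (fun i => Df (um 𝓤 hU) (alp lam A) b1 () cW i ≤ η * 2 ^ i / i)]
      have h5 : ∑ i ∈ (Ico i₀ i₁).filter (fun i => Df (um 𝓤 hU) (alp lam A) b1 () cW i ≤ η * 2 ^ i / i),
          (1 : ℝ) / i * ∑ p ∈ QQ i, Real.log p / 2 ^ i * (if M / p ∈ E then 1 else 0) = 0 := by
        apply sum_eq_zero
        intro i hi
        rw [sum_eq_zero, mul_zero]
        intro p hp
        rw [if_neg (hM1 i hi p hp), mul_zero]
      rw [h5, zero_add]
      have h6 : ∀ i ∈ (Ico i₀ i₁).filter (fun i => ¬ Df (um 𝓤 hU) (alp lam A) b1 () cW i ≤ η * 2 ^ i / i),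
          (1 : ℝ) / i * ∑ p ∈ QQ i, Real.log p / 2 ^ i * (if M / p ∈ E then 1 else 0) ≤ 1 / i * 3 := by
        intro i _
        apply mul_le_mul_of_nonneg_left _ (by positivity)
        have h5 : (0 : ℝ) < 2 ^ i := by positivity
        calc ∑ p ∈ QQ i, Real.log p / 2 ^ i * (if M / p ∈ E then (1 : ℝ) else 0) ≤
              ∑ p ∈ QD i (i + 1), Real.log (p : ℝ) / 2 ^ i := by
              apply sum_le_sum
              intro p hp
              have := hw0 i p hp
              split_ifs <;> linarith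
          _ = (∑ p ∈ QD i (i + 1), Real.log (p : ℝ)) / 2 ^ i := by rw [sum_div]
          _ ≤ 3 := by
              rw [div_le_iff₀ h5]
              exact Pool.Agent.TH575.CW.theta_QD i
      refine (sum_le_sum h6).trans ?_
      rw [← sum_mul, mul_comm]
      exact mul_le_mul_of_nonneg_left hbad (by norm_num)
    have h7 := hM3.trans h4
    rw [div_lt_iff₀ hε'] at hS
    nlinarith
  obtain ⟨i, hi, hDf, p₀, hp₀, hmem0⟩ := hex
  rw [mem_Ico] at hi
  have hip : i < 2 ^ i := Nat.lt_two_pow_self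
  -- the limit at `p₀`
  have hs0 : (1 - c) * v ≤ |sS 𝓤 ψ p₀| := by
    apply ge_of_tendsto (sS_tendsto 𝓤 hψ p₀).abs
    filter_upwards [hmem0] with M hM
    exact le_of_lt hM
  obtain ⟨P, hP1, hP2, hPw⟩ := window κ hκ0 hκ1 i p₀ hp₀
  set Pset : Finset ℕ := (Ioc P ⌊(1 + κ) * P⌋₊).filter (fun p => p.Prime ∧ p % A = 1 % A) with hPset
  have hPsub : Pset ⊆ QD i (i + 1) := by
    intro p hp
    rw [hPset, mem_filter] at hp
    unfold QD
    rw [mem_filter]
    exact ⟨(hPw p hp.1).1, hp.2.1⟩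
  have hPc := hP₀ P (by omega)
  set μ := um 𝓤 hU with hμ
  set s : ℝ := ∏ i, (-1 : ℝ) ^ e i with hs
  have hs1 : |s| = 1 := by
    rw [hs, abs_prod]
    apply prod_eq_one
    intro i _
    rw [abs_pow, abs_neg, abs_one, one_pow]
  have hdec := dec 𝓤 hU (alp lam A) cW hε0 i (by omega) (hI₂ i (by omega)) hDf (Gp lam V x e)
    (Gp_le lam hb V x e) (by
      intro p hp n n' hwin j hj
      have hp2 : p ≤ 2 ^ (i + 1) := by
        unfold QD at hp
        rw [mem_filter, mem_Ioc] at hp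
        exact hp.1.2
      have hidx : ∀ t, t < cW * 2 ^ i → alp lam A (n + t) = alp lam A (n' + t) := by
        intro t ht
        exact congrFun hwin ⟨t, ht⟩
      have hbd : p * (1 + ∑ i, x i) ≤ cW * 2 ^ i := by
        have h3 : p * (1 + ∑ i, x i) ≤ 2 ^ (i + 1) * (1 + ∑ i, x i) := Nat.mul_le_mul_right _ hp2
        have h4 : 2 ^ (i + 1) * (1 + ∑ i, x i) = cW * 2 ^ i := by rw [hcW, pow_succ]; ring
        omega
      have h5 : p * (1 + ∑ i, x i) = p + p * ∑ i, x i := by ring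
      have h2 : j < cW * 2 ^ i := by omega
      unfold Gp
      congr 1
      · apply ind_at
        apply V_congr hV
        exact alp_mod (hidx j h2)
      · apply prod_congr rfl
        intro l _
        have h1 : j + p * x l < cW * 2 ^ i := by
          have h6 : x l ≤ ∑ i, x i := single_le_sum (f := x) (fun _ _ => Nat.zero_le _) (mem_univ l)
          have h7 : p * x l ≤ p * ∑ i, x i := Nat.mul_le_mul_left _ h6
          omega
        have e2 := alp_f hb (hidx (j + p * x l) h1)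
        rw [add_assoc n j, e2, add_assoc n' j])
    (univ : Finset (Fin (m + 2))) x s hs1.le ψ hψ Pset hPsub (by
      intro p hp m' hm
      rw [hPset, mem_filter] at hp
      unfold Gp
      rw [hψd]
      simp only
      have e1 : ind V (p * m') = ind V m' := by
        apply ind_at
        apply V_congr hV
        have h3 : p ≡ 1 [MOD A] := hp.2.2
        have := Nat.ModEq.mul_right m' h3
        rwa [one_mul] at this
      rw [e1]
      have e2 : ∏ i, ((lam (p * m' + p * x i) : ℤ) : ℝ) ^ e i = s * ∏ i, ((lam (m' + x i) : ℤ) : ℝ) ^ e i := by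
        rw [hs, ← prod_mul_distrib]
        apply prod_congr rfl
        intro l _
        rw [show p * m' + p * x l = p * (m' + x l) by ring, hf p (m' + x l) hp.2.1 (hm l (mem_univ l)),
          ← mul_pow]
        push_cast
        ring
      rw [e2]
      ring)
  rw [card_univ, Fintype.card_fin] at hdec
  have hI3 := hI₃ i (by omega)
  have hmany := many_good hκ0 hφA (le_of_eq hεd) i P (by omega) hP1 hP2 Pset hPsub hPc
    (fun p => |s * sS 𝓤 ψ p - μ.m (Gp lam V x e p)|) (fun p => abs_nonneg _) (by linarith)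
  set Good : Finset ℕ := Pset.filter (fun p => |s * sS 𝓤 ψ p - μ.m (Gp lam V x e p)| ≤ κ) with hGood
  obtain ⟨p, D, hD1, hAD, hAP⟩ := hP₁ P (by omega) Good (by
    intro p hp
    rw [hGood, mem_filter, hPset, mem_filter] at hp
    exact ⟨hp.1.1, hp.1.2.1, hp.1.2.2⟩) hmany
  -- the sign
  obtain ⟨σ, hσ, hσ2⟩ : ∃ σ : ℝ, σ * σ = 1 ∧ σ * (s * sS 𝓤 ψ p₀) = |sS 𝓤 ψ p₀| := by
    have h1 : |s * sS 𝓤 ψ p₀| = |sS 𝓤 ψ p₀| := by rw [abs_mul, hs1, one_mul]
    rcases le_total 0 (s * sS 𝓤 ψ p₀) with h | h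
    · exact ⟨1, by norm_num, by rw [one_mul, ← h1, abs_of_nonneg h]⟩
    · exact ⟨-1, by norm_num, by rw [← h1, abs_of_nonpos h]; ring⟩
  have hσa : |σ| = 1 := by
    have : |σ| * |σ| = 1 := by rw [← abs_mul, hσ, abs_one]
    nlinarith [abs_nonneg σ]
  -- the mean of a good prime
  have hgood : ∀ p ∈ Good, (1 - c) * v - 3 * κ ≤ σ * μ.m (Gp lam V x e p) := by
    intro p hp
    rw [hGood, mem_filter] at hp
    have hpI : p ∈ Ioc P ⌊(1 + κ) * P⌋₊ := (mem_filter.1 hp.1).1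
    have hpp : p.Prime := QDp (hPsub hp.1)
    have hwin := (hPw p hpI).2
    have h2 : |sS 𝓤 ψ p₀ - sS 𝓤 ψ p| ≤ 2 * κ := by
      rcases le_total p₀ p with h3 | h3
      · refine (sS_cont 𝓤 hU hψ (QDp hp₀).pos h3).trans ?_
        have := hwin.1 h3
        linarith
      · rw [abs_sub_comm]
        refine (sS_cont 𝓤 hU hψ hpp.pos h3).trans ?_
        have := hwin.2 h3
        linarith
    have h3 : |σ * (s * sS 𝓤 ψ p₀) - σ * μ.m (Gp lam V x e p)| ≤ 3 * κ := by
      rw [← mul_sub, abs_mul, hσa, one_mul]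
      have e1 : s * sS 𝓤 ψ p₀ - μ.m (Gp lam V x e p) =
          s * (sS 𝓤 ψ p₀ - sS 𝓤 ψ p) + (s * sS 𝓤 ψ p - μ.m (Gp lam V x e p)) := by ring
      rw [e1]
      refine (abs_add_le _ _).trans ?_
      rw [abs_mul, hs1, one_mul]
      linarith [hp.2]
    rw [hσ2] at h3
    have := (abs_le.1 h3).2
    linarith
  set ρ : ℝ := (c * v + 3 * κ) / 2 with hρ
  have hvm : μ.m (ind V) = v := by rw [m_V μ hA hV]
  -- the vertices
  have hvert : ∀ (w t : ℤ), (A : ℤ) ∣ w → 0 ≤ t → t ≤ Q * R0 x' m →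
      μ.m (fun n : ℕ => ind V n * ((1 - σ * Ln phi x' (m + 2) (n + w) ((p : ℤ) + D * t)) / 2)) ≤ ρ := by
    intro w t hw ht0 ht1
    obtain ⟨t', ht'⟩ := Int.eq_ofNat_of_zero_le ht0
    have htK : t' < K := by
      rw [hK]
      omega
    have hpG := hAP t' htK
    have e1 : ((p : ℤ) + D * t) = ((p + t' * D : ℕ) : ℤ) := by
      rw [ht']
      push_cast
      ring
    rw [e1, vertex_mean μ V A hA hV x (p + t' * D) σ hσ x' hx'1 w hw, hvm, hρ]
    have h1 := hgood _ hpG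
    rw [he] at h1
    linarith
  have hADz : (A : ℤ) ∣ (D : ℤ) := by exact_mod_cast hAD
  -- the common difference
  obtain ⟨R, hR⟩ : ∃ R : ℕ, (R : ℤ) = D * Dl x' m * 2 ^ m := by
    have : 0 ≤ (D : ℤ) * Dl x' m * 2 ^ m := by
      have := Dl_pos x' m hx'2
      positivity
    exact ⟨_, Int.toNat_of_nonneg this⟩
  have hR1 : 1 ≤ R := by
    have h1 := Dl_pos x' m hx'2
    have h2 : (0 : ℤ) < D := by exact_mod_cast hD1
    have h3 : (0 : ℤ) < R := by
      rw [hR]
      positivity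
    exact_mod_cast h3
  have htwo : ∀ i j : ℕ, i < j → μ.m (fun n : ℕ => ind V n * (Fv x' m phi p D i n * Fv x' m phi p D j n)) ≤ δ := by
    intro i j hij
    obtain ⟨t, rfl⟩ := Nat.exists_eq_add_of_lt hij
    obtain ⟨N₀, hN₀⟩ := hE'R ((t + 1) * R) (Nat.one_le_iff_ne_zero.2 (Nat.mul_ne_zero (by omega) (by omega)))
    have hb2 := two_bound 𝓤 hU lam lam_bdd V A ((t + 1) * R) hA hV δ (by
      filter_upwards [hmem, hU (eventually_ge_atTop N₀)] with M hM hMN
      intro hME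
      exact hM.1 (hN₀ M hME hMN)) (p * x' (m + 1) + i * (D * Dl x' m * 2 ^ m))
    refine le_trans (le_of_eq ?_) ((le_abs_self _).trans hb2)
    rw [hμ]
    congr 1
    funext n
    congr 1
    unfold Fv phi
    push_cast
    congr 4
    rw [hR]
    ring
  have htwo' : ∀ i ∈ range Q, ∀ j ∈ range Q, i ≠ j →
      μ.m (fun n : ℕ => ind V n * (Fv x' m phi p D i n * Fv x' m phi p D j n)) ≤ δ := by
    intro i _ j _ hij
    rcases lt_or_gt_of_ne hij with h | h
    · exact htwo i j h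
    · refine le_trans (le_of_eq ?_) (htwo j i h)
      congr 1
      funext n
      rw [mul_comm (Fv x' m phi p D i n)]
  have hfin := mean_star μ V Q (fun i n => Fv x' m phi p D i n) (fun i n => (1 - σ * Bl x' m phi p D i n) / 2)
    (fun i j n => RR x' m phi p D σ i j n) (fun i n => phi_sq _)
    (fun i n => (sig_bd hσ (Ln_sq phi phi_sq _ _ _ _)).1) (fun i n => (sig_bd hσ (Ln_sq phi phi_sq _ _ _ _)).2)
    (fun i j n => (RR_bd x' m phi p D phi_sq σ hσ i j n).1) _
    (fun i j n => (RR_bd x' m phi p D phi_sq σ hσ i j n).2)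
    (fun n i _ j _ => pair x' m phi p D phi_sq σ hσ i j n) v ρ δ ((Z - 1) * ρ) q (by linarith) hδ0.le hvm htwo'
    (by
      intro i hi
      rw [mem_range] at hi
      have h1 := vP_bd x' m hx'2 Q i i hi hi ∅ (empty_subset _)
      have h2 : vP x' m i i ∅ = i * R0 x' m := by unfold vP; simp
      rw [h2] at h1
      refine le_trans (le_of_eq ?_) (hvert (-(D * (i * W0 x' m))) (i * R0 x' m)
        ((Dvd.dvd.mul_right hADz _).neg_right) h1.1 h1.2)
      congr 1)
    (by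
      intro i hi j hj
      rw [mem_range] at hi hj
      have hB : ∀ ω ∈ ((range (m + 1)).powerset.erase ∅).erase (range (m + 1)),
          Bd (fun n : ℕ => ind V n * ((1 - σ * Lv x' m phi p D i j ω n) / 2)) := by
        intro ω _
        apply Bd_mul (Bd_ind V)
        refine ⟨1, fun n => ?_⟩
        have h1 := sig_bd hσ (Lv_sq x' m phi p D phi_sq i j ω n)
        rw [abs_of_nonneg h1.1]
        exact h1.2
      have e1 : (fun n : ℕ => ind V n * RR x' m phi p D σ i j n) =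
          fun n : ℕ => ∑ ω ∈ ((range (m + 1)).powerset.erase ∅).erase (range (m + 1)),
            ind V n * ((1 - σ * Lv x' m phi p D i j ω n) / 2) := by
        funext n
        unfold RR
        rw [mul_sum]
      rw [e1, μ.sum _ hB]
      have h2 : ∀ ω ∈ ((range (m + 1)).powerset.erase ∅).erase (range (m + 1)),
          μ.m (fun n : ℕ => ind V n * ((1 - σ * Lv x' m phi p D i j ω n) / 2)) ≤ ρ := by
        intro ω hω
        have hω' := mem_powerset.1 (mem_of_mem_erase (mem_of_mem_erase hω))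
        have h1 := vP_bd x' m hx'2 Q i j hi hj ω hω'
        refine le_trans (le_of_eq ?_) (hvert (-(D * vW x' m i j ω)) (vP x' m i j ω)
          ((Dvd.dvd.mul_right hADz _).neg_right) h1.1 h1.2)
        congr 1
      calc _ ≤ ∑ ω ∈ ((range (m + 1)).powerset.erase ∅).erase (range (m + 1)), ρ := sum_le_sum h2
        _ = (Z - 1) * ρ := by
            rw [sum_const, nsmul_eq_mul, card_mid, hZ]
            ring)
  rw [hQ] at hfin
  exact numeric hv hg hg0 hZ1 hqg hq1 δ κ hδ hκ0.le le_rfl hfin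

end Pool.Agent.W4h4.CS
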