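import Pool.Agent.W4h4.CG

/-!
The explicit bound: the Moebius function.
-/

set_option autoImplicit false

namespace Pool.Agent.W4h4.CS

open Finset Filter Topology
open Pool.Agent.Y958.U
open Pool.Agent.Y958.TC (ind Av)

/-- from almost all scales to logarithmic averages, relative to a weight -/
lemma log_rel' (F P : ℕ → ℝ) (hP0 : ∀ n, 0 ≤ P n) (hP1 : ∀ n, P n ≤ 1) (hFP : ∀ n, |F n| ≤ P n)
    (c c' : ℝ) (hc1 : c ≤ 1) (hcc : c' < c) (E : Set ℕ) (hE : LZ E) (N₀ : ℕ)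
    (h : ∀ N : ℕ, N₀ ≤ N → N ∉ E → |∑ n ∈ Icc 1 N, F n| ≤ (1 - c) * ∑ n ∈ Icc 1 N, P n)
    (β : ℝ) (hβ : 0 < β) (N₁ : ℕ) (hlow : ∀ N : ℕ, N₁ ≤ N → β * N ≤ ∑ n ∈ Icc 1 N, P n) :
    ∃ X₀ : ℕ, ∀ X : ℕ, X₀ ≤ X → |∑ n ∈ Icc 1 X, F n / n| ≤ (1 - c') * ∑ n ∈ Icc 1 X, P n / n := by
  classical
  obtain ⟨η, hη⟩ : ∃ η, η = c - c' := ⟨_, rfl⟩
  have hη0 : 0 < η := by rw [hη]; linarith
  have hE1 : LZ (E ∪ {n | n < N₀}) := LZ_union hE (LZ_bdd _ N₀ fun n hn => hn)
  obtain ⟨X₁, hX₁⟩ := (LZ_iff _).1 hE1 (η * β / 2) (by positivity)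
  have hlog : Tendsto (fun X : ℕ => Real.log X) atTop atTop :=
    Real.tendsto_log_atTop.comp tendsto_natCast_atTop_atTop
  obtain ⟨X₂, hX₂⟩ := eventually_atTop.1 (hlog.eventually_ge_atTop (2 / (η * β) + 2 * (N₁ + 1)))
  refine ⟨X₁ + X₂ + 2, fun X hX => ?_⟩
  have h1 := hX₁ X (by omega)
  have h2 := hX₂ X (by omega)
  have hQ : ∀ N : ℕ, ∑ n ∈ Icc 1 N, P n ≤ N := by
    intro N
    refine (sum_le_sum fun k _ => hP1 _).trans (le_of_eq ?_)
    simp
  have hQ0 : ∀ N : ℕ, 0 ≤ ∑ n ∈ Icc 1 N, P n := fun N => sum_nonneg fun n _ => hP0 n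
  have hS : ∀ N : ℕ, |∑ n ∈ Icc 1 N, F n| ≤ ∑ n ∈ Icc 1 N, P n := by
    intro N
    exact (abs_sum_le_sum_abs _ _).trans (sum_le_sum fun k _ => hFP _)
  rw [abel_log F, abel_log P]
  set T : ℝ := ∑ N ∈ Icc 1 X, (∑ n ∈ Icc 1 N, P n) * (1 / ((N : ℝ) * (N + 1))) with hT
  set D : ℝ := (∑ n ∈ Icc 1 X, P n) / ((X : ℝ) + 1) with hD
  have hD0 : 0 ≤ D := div_nonneg (hQ0 X) (by positivity)
  have hD1 : D ≤ 1 := by
    rw [hD, div_le_one (by positivity)]
    have := hQ X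
    linarith
  have h3 : |(∑ n ∈ Icc 1 X, F n) / ((X : ℝ) + 1)| ≤ D := by
    rw [abs_div, abs_of_pos (by positivity : (0 : ℝ) < (X : ℝ) + 1), hD]
    exact div_le_div_of_nonneg_right (hS X) (by positivity)
  have h4 : |∑ N ∈ Icc 1 X, (∑ n ∈ Icc 1 N, F n) * (1 / ((N : ℝ) * (N + 1)))| ≤
      (1 - c) * T + ls (E ∪ {n | n < N₀}) X := by
    refine (abs_sum_le_sum_abs _ _).trans ?_
    have h5 : ∀ N ∈ Icc 1 X, |(∑ n ∈ Icc 1 N, F n) * (1 / ((N : ℝ) * (N + 1)))| ≤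
        (1 - c) * ((∑ n ∈ Icc 1 N, P n) * (1 / ((N : ℝ) * (N + 1)))) + li (E ∪ {n | n < N₀}) N := by
      intro N hN
      rw [mem_Icc] at hN
      have hN0 : (0 : ℝ) < N := by exact_mod_cast (by omega : 0 < N)
      have e1 : (0 : ℝ) < 1 / ((N : ℝ) * (N + 1)) := by positivity
      rw [abs_mul, abs_of_pos e1]
      have e2 : (N : ℝ) * (1 / ((N : ℝ) * (N + 1))) ≤ 1 / N := by
        rw [mul_one_div, div_le_div_iff₀ (by positivity) hN0]
        nlinarith
      by_cases hNE : N ∈ E ∪ {n | n < N₀}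
      · rw [li_mem hNE]
        have : |∑ n ∈ Icc 1 N, F n| * (1 / ((N : ℝ) * (N + 1))) ≤ N * (1 / ((N : ℝ) * (N + 1))) :=
          mul_le_mul_of_nonneg_right ((hS N).trans (hQ N)) e1.le
        have h6 : 0 ≤ (1 - c) * ((∑ n ∈ Icc 1 N, P n) * (1 / ((N : ℝ) * (N + 1)))) :=
          mul_nonneg (by linarith) (mul_nonneg (hQ0 N) e1.le)
        linarith
      · rw [li_not hNE, add_zero]
        have h6 : N ∉ E := fun hh => hNE (Or.inl hh)
        have h7 : N₀ ≤ N := by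
          by_contra hcc
          exact hNE (Or.inr (not_le.1 hcc))
        calc |∑ n ∈ Icc 1 N, F n| * (1 / ((N : ℝ) * (N + 1))) ≤
              ((1 - c) * ∑ n ∈ Icc 1 N, P n) * (1 / ((N : ℝ) * (N + 1))) :=
              mul_le_mul_of_nonneg_right (h N h7 h6) e1.le
          _ = (1 - c) * ((∑ n ∈ Icc 1 N, P n) * (1 / ((N : ℝ) * (N + 1)))) := by ring
    refine (sum_le_sum h5).trans ?_
    rw [sum_add_distrib, ← mul_sum, ls_eq]
  -- lower bound for the weight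
  have h6 : β * (Real.log X - 1) - β * N₁ ≤ T := by
    have h7 : ∀ N ∈ Icc 1 X, β * (1 / ((N : ℝ) + 1)) - (if N < N₁ then β else 0) ≤
        (∑ n ∈ Icc 1 N, P n) * (1 / ((N : ℝ) * (N + 1))) := by
      intro N hN
      rw [mem_Icc] at hN
      have hN0 : (0 : ℝ) < N := by exact_mod_cast (by omega : 0 < N)
      by_cases hNN : N < N₁
      · rw [if_pos hNN]
        have e1 : 1 / ((N : ℝ) + 1) ≤ 1 := by
          rw [div_le_one (by positivity)]; linarith
        have e2 : 0 ≤ (∑ n ∈ Icc 1 N, P n) * (1 / ((N : ℝ) * (N + 1))) :=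
          mul_nonneg (hQ0 N) (by positivity)
        nlinarith
      · rw [if_neg hNN, sub_zero]
        have e1 := hlow N (not_lt.1 hNN)
        calc β * (1 / ((N : ℝ) + 1)) = β * N * (1 / ((N : ℝ) * (N + 1))) := by field_simp
          _ ≤ _ := mul_le_mul_of_nonneg_right e1 (by positivity)
    have h8 := sum_le_sum h7
    rw [sum_sub_distrib, ← mul_sum, ← hT] at h8
    have h9 : ∑ N ∈ Icc 1 X, (if N < N₁ then β else 0) ≤ β * N₁ := by
      rw [← sum_filter, sum_const, nsmul_eq_mul, mul_comm]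
      apply mul_le_mul_of_nonneg_left _ hβ.le
      have : ((Icc 1 X).filter (fun N => N < N₁)).card ≤ (range N₁).card := by
        apply card_le_card
        intro n hn
        rw [mem_filter] at hn
        exact mem_range.2 hn.2
      rw [card_range] at this
      exact_mod_cast this
    have h10 : Real.log X - 1 ≤ ∑ N ∈ Icc 1 X, 1 / ((N : ℝ) + 1) := by
      have e1 := log_add_one_le_harmonic (X + 1)
      have e2 : ((harmonic (X + 1) : ℚ) : ℝ) = 1 + ∑ N ∈ Icc 1 X, 1 / ((N : ℝ) + 1) := by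
        unfold harmonic
        rw [sum_range_succ', add_comm]
        push_cast
        congr 1
        · simp
        · rw [← sum_range_Icc (fun N => 1 / ((N : ℝ) + 1)) X]
          apply sum_congr rfl
          intro i _
          push_cast
          rw [one_div]
      have e3 : Real.log X ≤ Real.log ((X + 1 + 1 : ℕ) : ℝ) := by
        apply Real.log_le_log (by exact_mod_cast (by omega : 0 < X))
        exact_mod_cast (by omega : X ≤ X + 1 + 1)
      rw [e2] at e1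
      linarith
    nlinarith
  have h11 := abs_add_le (∑ N ∈ Icc 1 X, (∑ n ∈ Icc 1 N, F n) * (1 / ((N : ℝ) * (N + 1))))
    ((∑ n ∈ Icc 1 X, F n) / ((X : ℝ) + 1))
  have hcβ : 0 < η * β := by positivity
  have h12 : 2 + 2 * ((N₁ : ℝ) + 1) * (η * β) ≤ Real.log X * (η * β) := by
    have := mul_le_mul_of_nonneg_right h2 hcβ.le
    rw [add_mul, div_mul_cancel₀ _ hcβ.ne'] at this
    linarith
  have h13 : η * (β * (Real.log X - 1) - β * N₁) ≤ η * T := mul_le_mul_of_nonneg_left h6 hη0.le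
  have h14 : (1 - c') * (T + D) = (1 - c) * T + η * T + D - c' * D := by rw [hη]; ring
  have h15 : c' * D ≤ 1 := by nlinarith
  rw [h14]
  nlinarith

/-- the Moebius function, one family of shifts -/
theorem mob_shift' (m : ℕ) (c : ℝ) (hc0 : 0 < c) (hc : c * (2 ^ (m + 1) - 1) < 1) (r : ℕ) (α : Fin r → ℤ)
    (ε : Fin r → ℕ) (hα : Function.Injective α) (hε : ∀ i, ε i = 1 ∨ ε i = 2)
    (hcard : (univ.filter (fun i => ε i = 1)).card = m + 2) :
      (∀ n, GG α (fun _ => 2) n = 0) ∨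
      ((∃ β : ℝ, 0 < β ∧ ∃ N₁ : ℕ, ∀ N : ℕ, N₁ ≤ N → β * N ≤ ∑ n ∈ Icc 1 N, GG α (fun _ => 2) n) ∧
        LZ {N | (1 - c) * ∑ n ∈ Icc 1 N, GG α (fun _ => 2) n < |∑ n ∈ Icc 1 N, GG α ε n|}) := by
  classical
  have hZ : (1 : ℝ) ≤ 2 ^ (m + 1) - 1 := by
    have := one_le_pow₀ (one_le_two : (1 : ℝ) ≤ 2) (n := m)
    rw [pow_succ]
    linarith
  obtain ⟨c', hcc, hc'⟩ : ∃ c' : ℝ, c < c' ∧ c' * (2 ^ (m + 1) - 1) < 1 := by
    refine ⟨(c + 1 / (2 ^ (m + 1) - 1)) / 2, ?_, ?_⟩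
    · have : c < 1 / (2 ^ (m + 1) - 1) := by
        rw [lt_div_iff₀ (by linarith)]; exact hc
      linarith
    · have e1 : (c + 1 / (2 ^ (m + 1) - 1)) / 2 * ((2 : ℝ) ^ (m + 1) - 1) =
          (c * (2 ^ (m + 1) - 1) + 1) / 2 := by
        field_simp
      rw [e1]
      linarith
  have hc'1 : c' < 1 := by nlinarith
  have hc'0 : 0 < c' := by linarith
  obtain ⟨η, hη⟩ : ∃ η, η = c' - c := ⟨_, rfl⟩
  have hη0 : 0 < η := by rw [hη]; linarith
  set m0 : ℕ := ∑ i, (α i).natAbs with hm0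
  have hm : ∀ i, -(m0 : ℤ) ≤ α i := by
    intro i
    have h1 : (α i).natAbs ≤ m0 := single_le_sum (f := fun i => (α i).natAbs) (fun _ _ => Nat.zero_le _) (mem_univ i)
    omega
  set x : Fin r → ℕ := fun i => (α i + m0).toNat with hx
  have hxZ : ∀ i, (x i : ℤ) = α i + m0 := by
    intro i
    simp only [hx]
    rw [Int.toNat_of_nonneg]
    have := hm i
    omega
  have hxinj : Function.Injective x := by
    intro i j hij
    apply hα
    have h1 := hxZ i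
    have h2 := hxZ j
    rw [hij] at h1
    omega
  have hcard' : Fintype.card {i // ε i = 1} = m + 2 := by
    rw [Fintype.card_subtype]
    exact hcard
  set σ : Fin (m + 2) ≃ {i // ε i = 1} := (Fintype.equivFinOfCardEq hcard').symm with hσ
  set b : Fin (m + 2) → ℕ := fun j => x (σ j).1 with hb
  have hbinj : Function.Injective b := by
    intro i j hij
    have h1 := hxinj hij
    exact σ.injective (Subtype.ext h1)
  have hto : ∀ n i, ((n + m0 : ℕ) + α i : ℤ).toNat = 1 * n + x i := by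
    intro n i
    have h1 := hxZ i
    have h2 : ((n + m0 : ℕ) + α i : ℤ) = ((1 * n + x i : ℕ) : ℤ) := by
      push_cast
      rw [h1]
      ring
    rw [h2, Int.toNat_natCast]
  have hG2 : ∀ n, GG α (fun _ => 2) (n + m0) = ind (SF (fun _ => 1) x) n := by
    intro n
    unfold GG
    by_cases h : SF (fun _ => 1) x n
    · rw [ind_pos' h]
      apply prod_eq_one
      intro i _
      rw [hto, moeb_sq, if_pos (h i)]
    · rw [ind_neg' h]
      unfold SF at h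
      push Not at h
      obtain ⟨i, hi⟩ := h
      apply prod_eq_zero (mem_univ i)
      rw [hto, moeb_sq, if_neg hi]
  have hG1 : ∀ n, GG α ε (n + m0) = ind (SF (fun _ => 1) x) n * FF (fun _ => 1) b n := by
    intro n
    unfold GG
    by_cases h : SF (fun _ => 1) x n
    · rw [ind_pos' h, one_mul]
      unfold FF
      have e1 : ∀ i, ((ArithmeticFunction.moebius ((n + m0 : ℕ) + α i : ℤ).toNat : ℤ) : ℝ) ^ ε i =
          if ε i = 1 then (-1 : ℝ) ^ ArithmeticFunction.cardFactors (1 * n + x i) else 1 := by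
        intro i
        rw [hto]
        by_cases hi : ε i = 1
        · rw [if_pos hi, hi, pow_one, ArithmeticFunction.moebius_apply_of_squarefree (h i)]
          push_cast
          rfl
        · rw [if_neg hi, (hε i).resolve_left hi, moeb_sq, if_pos (h i)]
      rw [prod_congr rfl fun i _ => e1 i, ← prod_filter]
      have e2 : ∏ i ∈ univ.filter (fun i => ε i = 1), (-1 : ℝ) ^ ArithmeticFunction.cardFactors (1 * n + x i) =
          ∏ i : {i // ε i = 1}, (-1 : ℝ) ^ ArithmeticFunction.cardFactors (1 * n + x i.1) := by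
        rw [← prod_subtype_eq_prod_filter, subtype_univ]
      rw [e2]
      exact (Equiv.prod_comp σ (fun i : {i // ε i = 1} =>
        (-1 : ℝ) ^ ArithmeticFunction.cardFactors (1 * n + x i.1))).symm
    · rw [ind_neg' h, zero_mul]
      unfold SF at h
      push Not at h
      obtain ⟨i, hi⟩ := h
      apply prod_eq_zero (mem_univ i)
      rw [hto, ArithmeticFunction.moebius_eq_zero_of_not_squarefree hi, Int.cast_zero, zero_pow]
      rcases hε i with h | h <;> omega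
  rcases core' m c' hc'0 hc' (fun _ => 1) b (fun _ => le_rfl) (fun i j hij => by
      simp only [one_mul]
      intro h
      exact hij (hbinj h).symm) r (fun _ => 1) x (fun _ => le_rfl) with hW | ⟨hβ, hLZ⟩
  · -- no value
    left
    obtain ⟨W, hW⟩ := hW
    intro n
    by_contra hne
    have hsq : ∀ i, Squarefree ((n : ℤ) + α i).toNat := by
      intro i
      by_contra hi
      apply hne
      unfold GG
      apply prod_eq_zero (mem_univ i)
      rw [moeb_sq, if_neg hi]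
    apply hW (n + (AW W - 1) * m0)
    intro i q hq hqW hd
    have hpos : 0 < ((n : ℤ) + α i).toNat := Nat.pos_of_ne_zero (hsq i).ne_zero
    have h1 : 1 * (n + (AW W - 1) * m0) + x i = ((n : ℤ) + α i).toNat + AW W * m0 := by
      have h2 := hxZ i
      have h3 : (((n : ℤ) + α i).toNat : ℤ) = n + α i := Int.toNat_of_nonneg (by omega)
      have h4 : (AW W - 1) * m0 + m0 = AW W * m0 := by
        have := AW_pos W
        calc (AW W - 1) * m0 + m0 = (AW W - 1 + 1) * m0 := by ring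
          _ = AW W * m0 := by rw [Nat.sub_add_cancel this]
      have h5 : ((1 * (n + (AW W - 1) * m0) + x i : ℕ) : ℤ) =
          ((((n : ℤ) + α i).toNat + AW W * m0 : ℕ) : ℤ) := by
        rw [← h4]
        push_cast
        rw [h3, h2]
        ring
      exact_mod_cast h5
    rw [h1] at hd
    have hdA : q ^ 2 ∣ AW W * m0 := by
      apply Dvd.dvd.mul_right
      unfold AW
      exact pow_dvd_pow_of_dvd ((Nat.Prime.dvd_factorial hq).2 hqW) 2
    rw [Nat.dvd_add_left hdA, sq] at hd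
    exact (Nat.squarefree_iff_prime_squarefree.1 (hsq i)) q hq hd
  · right
    obtain ⟨β, hβ0, N₁, hβN⟩ := hβ
    have hs2 : ∀ N, |∑ n ∈ Icc 1 N, ind (SF (fun _ => 1) x) n - ∑ n ∈ Icc 1 N, GG α (fun _ => 2) n| ≤ 2 * m0 := by
      intro N
      have := shift_sum (GG α (fun _ => 2)) (GG_le α _) m0 N
      rw [sum_congr rfl fun n _ => hG2 n] at this
      exact this
    have hs1 : ∀ N, |∑ n ∈ Icc 1 N, ind (SF (fun _ => 1) x) n * FF (fun _ => 1) b n -
        ∑ n ∈ Icc 1 N, GG α ε n| ≤ 2 * m0 := by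
      intro N
      have := shift_sum (GG α ε) (GG_le α _) m0 N
      rw [sum_congr rfl fun n _ => hG1 n] at this
      exact this
    refine ⟨⟨β / 2, by positivity, N₁ + ⌈4 * m0 / β⌉₊, fun N hN => ?_⟩, ?_⟩
    · have h1 := hβN N (by omega)
      have h2 : 4 * m0 / β ≤ N := (Nat.le_ceil _).trans (Nat.cast_le.2 (by omega))
      rw [div_le_iff₀ hβ0] at h2
      have h3 := abs_le.1 (hs2 N)
      linarith [h3.1, h3.2]
    · set K : ℕ := N₁ + ⌈8 * m0 / (η * β)⌉₊ with hK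
      refine LZ_sub ?_ (LZ_union hLZ (LZ_bdd {N | N < K} _ fun n hn => hn))
      intro N hN
      by_cases hNK : N < K
      · exact Or.inr hNK
      left
      rw [Set.mem_setOf_eq] at hN ⊢
      have h1 := hβN N (by omega)
      have h2 : 8 * m0 / (η * β) ≤ N := (Nat.le_ceil _).trans (Nat.cast_le.2 (by omega))
      rw [div_le_iff₀ (by positivity)] at h2
      have h3 := abs_le.1 (hs2 N)
      have h4 := abs_sub_abs_le_abs_sub (∑ n ∈ Icc 1 N, GG α ε n)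
        (∑ n ∈ Icc 1 N, ind (SF (fun _ => 1) x) n * FF (fun _ => 1) b n)
      rw [abs_sub_comm] at h4
      have h5 := hs1 N
      have h6 : η * (β * N) ≤ η * ∑ n ∈ Icc 1 N, ind (SF (fun _ => 1) x) n :=
        mul_le_mul_of_nonneg_left h1 hη0.le
      have hm00 : (0 : ℝ) ≤ m0 := Nat.cast_nonneg m0
      obtain ⟨S1, hS1⟩ : ∃ S1, S1 = ∑ n ∈ Icc 1 N, ind (SF (fun _ => 1) x) n := ⟨_, rfl⟩
      obtain ⟨S2, hS2⟩ : ∃ S2, S2 = ∑ n ∈ Icc 1 N, GG α (fun _ => 2) n := ⟨_, rfl⟩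
      rw [← hS1] at h3 h6 ⊢
      rw [← hS2] at h3 hN
      have e1 : (1 - c') * S1 = (1 - c) * S1 - η * S1 := by rw [hη]; ring
      rw [e1]
      have h7 : (1 - c) * S1 ≤ (1 - c) * (S2 + 2 * m0) := by
        apply mul_le_mul_of_nonneg_left _ (by linarith)
        linarith [h3.2]
      have h8 : (1 - c) * (2 * (m0 : ℝ)) ≤ 2 * m0 := by nlinarith
      nlinarith

/-- the final statement -/
theorem mob_final' : ∃ E : Set ℕ, LZ E ∧
    ∀ (r : ℕ) (α : Fin r → ℤ) (ε : Fin r → ℕ) (η : ℝ), Function.Injective α → (∀ i, ε i = 1 ∨ ε i = 2) →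
      2 ≤ (univ.filter (fun i => ε i = 1)).card → 0 < η →
      (∃ N₀ : ℕ, ∀ N : ℕ, N₀ ≤ N → N ∉ E → |∑ n ∈ Icc 1 N, GG α ε n| ≤
        (1 - 1 / (2 ^ ((univ.filter (fun i => ε i = 1)).card - 1) - 1) + η) *
          ∑ n ∈ Icc 1 N, GG α (fun _ => 2) n) ∧
      ∃ N₀ : ℕ, ∀ N : ℕ, N₀ ≤ N → |∑ n ∈ Icc 1 N, GG α ε n / n| ≤
        (1 - 1 / (2 ^ ((univ.filter (fun i => ε i = 1)).card - 1) - 1) + η) *
          ∑ n ∈ Icc 1 N, GG α (fun _ => 2) n / n := by
  classical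
  -- the constants
  obtain ⟨cc, hcc⟩ : ∃ cc : ℕ → ℕ → ℝ, cc = fun (s j : ℕ) => (1 : ℝ) / ((2 : ℝ) ^ (s - 1) - 1) * (1 - 1 / ((j : ℝ) + 2)) := ⟨_, rfl⟩
  have hZ : ∀ m : ℕ, (1 : ℝ) ≤ 2 ^ (m + 1) - 1 := by
    intro m
    have := one_le_pow₀ (one_le_two : (1 : ℝ) ≤ 2) (n := m)
    rw [pow_succ]
    linarith
  have hj : ∀ j : ℕ, 0 < 1 - 1 / ((j : ℝ) + 2) ∧ 1 - 1 / ((j : ℝ) + 2) < 1 := by
    intro j
    have h1 : (0 : ℝ) < 1 / ((j : ℝ) + 2) := by positivity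
    have h2 : 1 / ((j : ℝ) + 2) < 1 := by
      rw [div_lt_one (by positivity)]
      have : (0 : ℝ) ≤ j := Nat.cast_nonneg j
      linarith
    constructor <;> linarith
  have hcc0 : ∀ m j, 0 < cc (m + 2) j := by
    intro m j
    rw [hcc]
    have h1 : (0 : ℝ) < 2 ^ (m + 2 - 1) - 1 := by
      have := hZ m
      rw [show m + 2 - 1 = m + 1 by omega]
      linarith
    exact mul_pos (by positivity) (hj j).1
  have hcc1 : ∀ m j, cc (m + 2) j * (2 ^ (m + 1) - 1) < 1 := by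
    intro m j
    rw [hcc]
    simp only
    rw [show m + 2 - 1 = m + 1 by omega]
    have h1 := hZ m
    have e1 : 1 / ((2 : ℝ) ^ (m + 1) - 1) * (1 - 1 / ((j : ℝ) + 2)) * (2 ^ (m + 1) - 1) = 1 - 1 / ((j : ℝ) + 2) := by
      field_simp
    rw [e1]
    exact (hj j).2
  set G : ((Σ r : ℕ, (Fin r → ℤ) × (Fin r → ℕ)) × ℕ) → Set ℕ := fun t =>
    {N | (Function.Injective t.1.2.1 ∧ (∀ i, t.1.2.2 i = 1 ∨ t.1.2.2 i = 2) ∧
        2 ≤ (univ.filter (fun i => t.1.2.2 i = 1)).card) ∧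
      (1 - cc (univ.filter (fun i => t.1.2.2 i = 1)).card t.2) * ∑ n ∈ Icc 1 N, GG t.1.2.1 (fun _ => 2) n <
        |∑ n ∈ Icc 1 N, GG t.1.2.1 t.1.2.2 n|} with hG
  have hzero : ∀ (r : ℕ) (α : Fin r → ℤ) (ε : Fin r → ℕ), (∀ i, ε i = 1 ∨ ε i = 2) →
      (∀ n, GG α (fun _ => 2) n = 0) → ∀ n, GG α ε n = 0 := by
    intro r α ε hε h n
    have h1 := GG_abs α ε hε n
    rw [h n] at h1
    exact abs_eq_zero.1 h1
  have hms : ∀ (r : ℕ) (α : Fin r → ℤ) (ε : Fin r → ℕ) (j : ℕ), Function.Injective α → (∀ i, ε i = 1 ∨ ε i = 2) →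
      2 ≤ (univ.filter (fun i => ε i = 1)).card →
      (∀ n, GG α (fun _ => 2) n = 0) ∨
      ((∃ β : ℝ, 0 < β ∧ ∃ N₁ : ℕ, ∀ N : ℕ, N₁ ≤ N → β * N ≤ ∑ n ∈ Icc 1 N, GG α (fun _ => 2) n) ∧
        LZ {N | (1 - cc (univ.filter (fun i => ε i = 1)).card j) * ∑ n ∈ Icc 1 N, GG α (fun _ => 2) n <
          |∑ n ∈ Icc 1 N, GG α ε n|}) := by
    intro r α ε j hα hε h2
    obtain ⟨m, hm⟩ : ∃ m, (univ.filter (fun i => ε i = 1)).card = m + 2 :=
      ⟨(univ.filter (fun i => ε i = 1)).card - 2, by omega⟩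
    rw [hm]
    exact mob_shift' m (cc (m + 2) j) (hcc0 m j) (hcc1 m j) r α ε hα hε hm
  have hGZ : ∀ t, LZ (G t) := by
    rintro ⟨⟨r, α, ε⟩, j⟩
    by_cases ht : Function.Injective α ∧ (∀ i, ε i = 1 ∨ ε i = 2) ∧ 2 ≤ (univ.filter (fun i => ε i = 1)).card
    · rcases hms r α ε j ht.1 ht.2.1 ht.2.2 with h | ⟨-, h⟩
      · refine LZ_sub ?_ LZ_empty
        rintro N ⟨-, hN⟩
        simp only at hN
        rw [sum_congr rfl fun n _ => h n, sum_congr rfl fun n _ => hzero r α ε ht.2.1 h n] at hN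
        simp at hN
      · refine LZ_sub ?_ h
        rintro N ⟨-, hN⟩
        exact hN
    · refine LZ_sub ?_ LZ_empty
      rintro N ⟨h, -⟩
      exact absurd h ht
  haveI : Nonempty ((Σ r : ℕ, (Fin r → ℤ) × (Fin r → ℕ)) × ℕ) := ⟨⟨⟨0, Fin.elim0, Fin.elim0⟩, 0⟩⟩
  obtain ⟨E, hE, hdiag⟩ := diag' G hGZ
  refine ⟨E, hE, fun r α ε η hα hε h2 hη => ?_⟩
  set s := (univ.filter (fun i => ε i = 1)).card with hs
  obtain ⟨m, hm⟩ : ∃ m, s = m + 2 := ⟨s - 2, by omega⟩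
  obtain ⟨j, hjη⟩ := exists_nat_one_div_lt (show (0 : ℝ) < η / 2 by positivity)
  -- `cc s j ≥ 1 / (2 ^ (s - 1) - 1) - η / 2`
  have hcj : 1 / ((2 : ℝ) ^ (s - 1) - 1) - η / 2 ≤ cc s j := by
    rw [hcc]
    simp only
    rw [hm, show m + 2 - 1 = m + 1 by omega]
    have h1 := hZ m
    have h3 : 1 / ((2 : ℝ) ^ (m + 1) - 1) ≤ 1 := by
      rw [div_le_one (by linarith)]; exact h1
    have h4 : 1 / ((j : ℝ) + 2) ≤ 1 / ((j : ℝ) + 1) := by
      apply one_div_le_one_div_of_le (by positivity)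
      linarith
    have h5 : (0 : ℝ) < 1 / ((j : ℝ) + 2) := by positivity
    have h6 : 1 / ((2 : ℝ) ^ (m + 1) - 1) * (1 / ((j : ℝ) + 2)) ≤ 1 * (1 / ((j : ℝ) + 2)) :=
      mul_le_mul_of_nonneg_right h3 h5.le
    linarith
  obtain ⟨N₀, hN₀⟩ := hdiag ⟨⟨r, α, ε⟩, j⟩
  have h1 : ∀ N : ℕ, N₀ ≤ N → N ∉ E → |∑ n ∈ Icc 1 N, GG α ε n| ≤
      (1 - cc s j) * ∑ n ∈ Icc 1 N, GG α (fun _ => 2) n := by
    intro N hN hNE
    by_contra hcon
    apply hNE
    exact hN₀ N ⟨⟨hα, hε, h2⟩, not_le.1 hcon⟩ hN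
  refine ⟨⟨N₀, fun N hN hNF => (h1 N hN hNF).trans ?_⟩, ?_⟩
  · apply mul_le_mul_of_nonneg_right _ (sum_nonneg fun n _ => (GG_two α n).1)
    linarith
  · rcases hms r α ε j hα hε h2 with h | ⟨⟨β, hβ, N₁, hβN⟩, -⟩
    · refine ⟨0, fun N _ => ?_⟩
      have e1 : ∀ n ∈ Icc 1 N, GG α ε n / n = 0 := fun n _ => by rw [hzero r α ε hε h n, zero_div]
      have e2 : ∀ n ∈ Icc 1 N, GG α (fun _ => 2) n / n = 0 := fun n _ => by rw [h n, zero_div]
      rw [sum_congr rfl e1, sum_congr rfl e2]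
      simp
    · have hc1 : cc s j ≤ 1 := by
        have h3 := hcc1 m j
        have h4 := hZ m
        have h5 := hcc0 m j
        rw [hm]
        nlinarith
      obtain ⟨X₀, hX₀⟩ := log_rel' (GG α ε) (GG α (fun _ => 2)) (fun n => (GG_two α n).1)
        (fun n => (GG_two α n).2) (fun n => (GG_abs α ε hε n).le) (cc s j) (cc s j - η / 2) hc1 (by linarith)
        E hE N₀ h1 β hβ N₁ hβN
      refine ⟨X₀, fun X hX => (hX₀ X hX).trans ?_⟩
      apply mul_le_mul_of_nonneg_right _ (sum_nonneg fun n _ => div_nonneg (GG_two α n).1 (Nat.cast_nonneg n))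
      linarith

end Pool.Agent.W4h4.CS
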