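import Mathlib

set_option autoImplicit false

namespace Pool.Agent.W4h4.PermPoly

open Finset Equiv

/-! ### Laplace expansion of sums over permutations -/

/-- all choices of one entry `b` of `l`, together with `l` where `b` is replaced by `a` -/
def pk (a : ℕ) : List ℕ → List (ℕ × List ℕ)
  | [] => []
  | b :: l => (b, a :: l) :: (pk a l).map (fun x => (x.1, b :: x.2))

/-- the permanent of the matrix with the given rows and the columns listed in the second
argument, expanded along the first row -/
def perR : List (List ℕ) → List ℕ → ℕ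
  | [], _ => 1
  | _ :: _, [] => 0
  | r :: rs, a :: l => r.getD a 0 * perR rs l +
      ((pk a l).map (fun x => r.getD x.1 0 * perR rs x.2)).sum

lemma pk_eq (a : ℕ) (l : List ℕ) :
    pk a l = List.ofFn (fun q : Fin l.length => (l.getD q 0, l.set q a)) := by
  induction l with
  | nil => simp [pk]
  | cons b l ih =>
    rw [pk, ih]
    simp [List.map_ofFn, Function.comp_def]

lemma perR_eq (n : ℕ) : ∀ (rs : List (List ℕ)) (av : List ℕ), rs.length = n → av.length = n →
    perR rs av = ∑ σ : Perm (Fin n), ∏ i : Fin n,
      (rs.getD (i : ℕ) []).getD (av.getD (σ i : ℕ) 0) 0 := by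
  induction n with
  | zero =>
    intro rs av h1 h2
    obtain rfl := List.length_eq_zero_iff.1 h1
    simp [perR]
  | succ n ih =>
    intro rs av h1 h2
    obtain ⟨r, rs, rfl⟩ := List.exists_cons_of_length_eq_add_one h1
    obtain ⟨a, l, rfl⟩ := List.exists_cons_of_length_eq_add_one h2
    have h1' : rs.length = n := by simpa using h1
    have h2' : l.length = n := by simpa using h2
    rw [perR, ← Equiv.sum_comp Equiv.Perm.decomposeFin.symm, Fintype.sum_prod_type,
      Fin.sum_univ_succ]
    congr 1
    · rw [ih rs l h1' h2', Finset.mul_sum]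
      refine Finset.sum_congr rfl fun σ _ => ?_
      rw [Fin.prod_univ_succ]
      simp [Equiv.Perm.decomposeFin_symm_apply_succ]
    · rw [pk_eq, List.map_ofFn, List.sum_ofFn]
      subst h2'
      refine Finset.sum_congr rfl fun q _ => ?_
      simp only [Function.comp_def]
      rw [ih rs (l.set q a) h1' (by simp), Finset.mul_sum]
      refine Finset.sum_congr rfl fun σ _ => ?_
      rw [Fin.prod_univ_succ]
      simp only [Equiv.Perm.decomposeFin_symm_apply_zero,
        Equiv.Perm.decomposeFin_symm_apply_succ]
      congr 1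
      refine Finset.prod_congr rfl fun i _ => ?_
      have : (l.set (q : ℕ) a).getD (σ i : ℕ) 0 =
          (a :: l).getD ((swap (0 : Fin (l.length + 1)) q.succ (σ i).succ : Fin _) : ℕ) 0 := by
        by_cases h : σ i = q
        · rw [h, Equiv.swap_apply_right]
          simp
        · rw [Equiv.swap_apply_of_ne_of_ne (Fin.succ_ne_zero _) (by simpa using h)]
          have h' : (q : ℕ) ≠ (σ i : ℕ) := fun e => h (Fin.ext e.symm)
          simp [List.getD_eq_getElem?_getD, h']
      rw [this]
      simp

/-! ### Uniqueness of base `B` expansions -/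

lemma digits_unique (B : ℕ) (hB : 1 < B) (N : ℕ) : ∀ c d : ℕ → ℕ, (∀ k, c k < B) →
    (∀ k, d k < B) → ∑ k ∈ range N, c k * B ^ k = ∑ k ∈ range N, d k * B ^ k →
    ∀ k < N, c k = d k := by
  induction N with
  | zero => intro c d _ _ _ k hk; omega
  | succ N ih =>
    intro c d hc hd e k hk
    rw [Finset.sum_range_succ', Finset.sum_range_succ'] at e
    have e1 : ∀ c : ℕ → ℕ, ∑ k ∈ range N, c (k + 1) * B ^ (k + 1) =
        B * ∑ k ∈ range N, c (k + 1) * B ^ k := by
      intro c
      rw [Finset.mul_sum]
      exact Finset.sum_congr rfl fun k _ => by ring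
    rw [e1, e1] at e
    simp only [pow_zero, mul_one] at e
    have e0 : c 0 = d 0 := by
      have h1 := congrArg (· % B) e
      simp only [Nat.mul_add_mod] at h1
      rwa [Nat.mod_eq_of_lt (hc 0), Nat.mod_eq_of_lt (hd 0)] at h1
    have e2 : ∑ k ∈ range N, c (k + 1) * B ^ k = ∑ k ∈ range N, d (k + 1) * B ^ k := by
      rw [e0] at e
      exact Nat.eq_of_mul_eq_mul_left (by omega) (Nat.add_right_cancel e)
    cases k with
    | zero => exact e0
    | succ k =>
      exact ih (fun k => c (k + 1)) (fun k => d (k + 1)) (fun k => hc _) (fun k => hd _) e2 k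
        (by omega)

lemma sum_pow_eq {γ : Type} (u : Finset γ) (f : γ → ℕ) (N B : ℕ) (hf : ∀ a ∈ u, f a < N) :
    ∑ a ∈ u, B ^ f a = ∑ k ∈ range N, (u.filter (fun a => f a = k)).card * B ^ k := by
  rw [← Finset.sum_fiberwise_of_maps_to (s := u) (t := range N) (g := f)
    (fun a ha => Finset.mem_range.2 (hf a ha))]
  refine Finset.sum_congr rfl fun k _ => ?_
  rw [Finset.sum_congr rfl (g := fun _ => B ^ k)]
  · simp
  · intro a ha
    rw [(Finset.mem_filter.1 ha).2]

/-- Two finite families of exponents with equal sums of powers of a large base agree up to order. -/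
lemma map_eq_of_sum_pow {α β : Type} (s : Finset α) (t : Finset β) (g : α → ℕ) (h : β → ℕ)
    (N B : ℕ) (hB : 1 < B) (hg : ∀ a ∈ s, g a < N) (hh : ∀ b ∈ t, h b < N) (hs : s.card < B)
    (ht : t.card < B) (e : ∑ a ∈ s, B ^ g a = ∑ b ∈ t, B ^ h b) :
    s.val.map g = t.val.map h := by
  rw [sum_pow_eq s g N B hg, sum_pow_eq t h N B hh] at e
  have key := digits_unique B hB N _ _
    (fun k => (Finset.card_filter_le s (fun a => g a = k)).trans_lt hs)
    (fun k => (Finset.card_filter_le t (fun a => h a = k)).trans_lt ht) e
  ext k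
  rw [Multiset.count_map, Multiset.count_map]
  by_cases hk : k < N
  · have := key k hk
    simp only [Finset.card_def, Finset.filter_val] at this
    simpa only [eq_comm] using this
  · have h1 : s.val.filter (fun a => k = g a) = 0 :=
      Multiset.filter_eq_nil.2 fun a ha hka => hk (hka ▸ hg a ha)
    have h2 : t.val.filter (fun b => k = h b) = 0 :=
      Multiset.filter_eq_nil.2 fun b hb hkb => hk (hkb ▸ hh b hb)
    simp [h1, h2]

end Pool.Agent.W4h4.PermPoly
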