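import Mathlib
import Pool.Agent.W4h4.PermPoly

/-!
# The permanental Q-polynomial is not a complete graph invariant

Two non-isomorphic graphs on 8 vertices with 14 edges have the same generalized permanental
polynomial `P(G; x, λ, μ) = per (x I + λ A + μ (J - I - A))`, hence the same Q-polynomial.
-/

set_option autoImplicit false

namespace Pool.Agent.Results.MP_5909b9_co.NotComplete

open MvPolynomial Finset Pool.Agent.W4h4.PermPoly

/-- The polynomial ring `ℚ[x, λ, μ]`, with `x = X 0`, `λ = X 1`, `μ = X 2`. -/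
abbrev R := MvPolynomial (Fin 3) ℚ

/-- The all-ones matrix `J`. -/
noncomputable def J (n : ℕ) : Matrix (Fin n) (Fin n) R := Matrix.of fun _ _ => 1

open Classical in
/-- The permanental polynomial `P(G; x, λ, μ) = per (x I + λ A + μ (J - I - A))`. -/
noncomputable def P {n : ℕ} (G : SimpleGraph (Fin n)) : R :=
  Matrix.permanent ((X 0 : R) • (1 : Matrix (Fin n) (Fin n) R) + (X 1 : R) • G.adjMatrix R +
    (X 2 : R) • (J n - 1 - G.adjMatrix R))

/-- The linear operator `ω`: `ω (x^a λ^b μ^r) = x^a λ^b μ^r / r!`. -/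
noncomputable def omega : R →ₗ[ℚ] R :=
  (MvPolynomial.basisMonomials (Fin 3) ℚ).constr ℚ
    (fun s => monomial s (1 / ((s 2).factorial : ℚ)))

/-- The Q-polynomial `Q(G; x, λ, μ) = ω P(G; x + μ, λ + μ, μ)`. -/
noncomputable def Q {n : ℕ} (G : SimpleGraph (Fin n)) : R :=
  omega (aeval ![X 0 + X 2, X 1 + X 2, X 2] (P G))

open Classical in
/-- The second description of the Q-polynomial: `Q(G) = ω per (x I + λ A + μ J)`. -/
theorem Q_eq {n : ℕ} (G : SimpleGraph (Fin n)) :
    Q G = omega (Matrix.permanent ((X 0 : R) • (1 : Matrix (Fin n) (Fin n) R) +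
      (X 1 : R) • G.adjMatrix R + (X 2 : R) • J n)) := by
  unfold Q P
  congr 1
  unfold Matrix.permanent
  rw [map_sum]
  refine Finset.sum_congr rfl fun σ _ => ?_
  rw [map_prod]
  refine Finset.prod_congr rfl fun i _ => ?_
  simp only [Matrix.add_apply, Matrix.smul_apply, Matrix.sub_apply, SimpleGraph.adjMatrix_apply,
    Matrix.one_apply, J, Matrix.of_apply, smul_eq_mul, map_add, map_mul, map_sub, aeval_X, map_one]
  split_ifs <;> simp
  all_goals ring

/-- adjacency lists of the first graph -/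
def adjG : List (List ℕ) :=
  [[3,5,6,7],[4,5,7],[5,6,7],[0,6],[1,6],[0,1,2,7],[0,2,3,4,7],[0,1,2,5,6]]

/-- adjacency lists of the second graph -/
def adjH : List (List ℕ) :=
  [[3,5,6,7],[4,5,7],[5,7],[0,6,7],[1,6],[0,1,2,6,7],[0,3,4,5],[0,1,2,3,5]]

/-- the graph on `{0, ..., 7}` with edges 03 05 06 07 14 15 17 25 26 27 36 46 57 67 -/
def G₀ : SimpleGraph (Fin 8) where
  Adj i j := (j : ℕ) ∈ adjG.getD (i : ℕ) []
  symm := ⟨by decide⟩
  loopless := ⟨by decide⟩

/-- the graph on `{0, ..., 7}` with edges 03 05 06 07 14 15 17 25 27 36 37 46 56 57 -/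
def H₀ : SimpleGraph (Fin 8) where
  Adj i j := (j : ℕ) ∈ adjH.getD (i : ℕ) []
  symm := ⟨by decide⟩
  loopless := ⟨by decide⟩

instance : DecidableRel G₀.Adj := fun _ j => inferInstanceAs (Decidable ((j : ℕ) ∈ _))
instance : DecidableRel H₀.Adj := fun _ j => inferInstanceAs (Decidable ((j : ℕ) ∈ _))

theorem not_iso : ¬ Nonempty (G₀ ≃g H₀) := by
  rintro ⟨φ⟩
  have hdeg : ∀ v, H₀.degree (φ v) = G₀.degree v := by
    intro v
    rw [← SimpleGraph.card_neighborSet_eq_degree, ← SimpleGraph.card_neighborSet_eq_degree]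
    exact Fintype.card_congr (φ.mapNeighborSet v).symm
  have h1 : ∀ w u₁ u₂ : Fin 8, H₀.degree w = 5 → H₀.Adj w u₁ → H₀.Adj w u₂ → H₀.degree u₁ = 2 →
      H₀.degree u₂ = 2 → u₁ = u₂ := by decide
  have h2 := h1 (φ 6) (φ 3) (φ 4) (by rw [hdeg]; decide) (φ.map_adj_iff.2 (by decide))
    (φ.map_adj_iff.2 (by decide)) (by rw [hdeg]; decide) (by rw [hdeg]; decide)
  exact absurd (φ.injective h2) (by decide)

/-! ### The two permanental polynomials agree -/

/-- the number of fixed points of `σ` -/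
def fx (σ : Equiv.Perm (Fin 8)) : ℕ := (univ.filter fun i => i = σ i).card

/-- the number of non-fixed `i` with `σ i` in the adjacency list of `i` -/
def ed (adj : List (List ℕ)) (σ : Equiv.Perm (Fin 8)) : ℕ :=
  (univ.filter fun i => ¬ i = σ i ∧ (σ i : ℕ) ∈ adj.getD (i : ℕ) []).card

lemma prod3 {S : Type} [CommMonoid S] (x l m : S) (adj : List (List ℕ))
    (σ : Equiv.Perm (Fin 8)) :
    ∏ i : Fin 8, (if i = σ i then x else if (σ i : ℕ) ∈ adj.getD (i : ℕ) [] then l else m) =
      x ^ fx σ * (l ^ ed adj σ * m ^ (8 - fx σ - ed adj σ)) := by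
  rw [Finset.prod_ite, Finset.prod_const, Finset.prod_ite, Finset.prod_const, Finset.prod_const,
    Finset.filter_filter, Finset.filter_filter]
  have h1 := Finset.card_filter_add_card_filter_not (s := (univ : Finset (Fin 8)))
    (fun i => i = σ i)
  have h2 := Finset.card_filter_add_card_filter_not
    (s := (univ : Finset (Fin 8)).filter (fun i => ¬ i = σ i))
    (fun i => (σ i : ℕ) ∈ adj.getD (i : ℕ) [])
  rw [Finset.filter_filter, Finset.filter_filter] at h2
  have h3 : (univ : Finset (Fin 8)).card = 8 := by simp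
  have h4 : (univ.filter fun i : Fin 8 => ¬ i = σ i ∧ ¬ (σ i : ℕ) ∈ adj.getD (i : ℕ) []).card =
      8 - fx σ - ed adj σ := by
    unfold fx ed
    omega
  rw [h4]
  rfl

/-- the exponent of the base attached to `σ` -/
def ex (adj : List (List ℕ)) (σ : Equiv.Perm (Fin 8)) : ℕ := 9 * fx σ + ed adj σ

lemma fx_le (σ : Equiv.Perm (Fin 8)) : fx σ ≤ 8 :=
  (Finset.card_filter_le _ _).trans (by simp)

lemma ed_le (adj : List (List ℕ)) (σ : Equiv.Perm (Fin 8)) : ed adj σ ≤ 8 :=
  (Finset.card_filter_le _ _).trans (by simp)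

/-- the monomial attached to an exponent -/
noncomputable def F (k : ℕ) : R :=
  X 0 ^ (k / 9) * (X 1 ^ (k % 9) * X 2 ^ (8 - k / 9 - k % 9))

/-- rows of the integer matrix with `D` on the diagonal, `E` at the edges, `1` elsewhere -/
def rowsOf (adj : List (List ℕ)) (D E : ℕ) : List (List ℕ) :=
  (List.range 8).map (fun i => (List.range 8).map (fun j =>
    if i = j then D else if j ∈ adj.getD i [] then E else 1))

lemma perR_rows (adj : List (List ℕ)) :
    perR (rowsOf adj (2 ^ 144) (2 ^ 16)) (List.range 8) =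
      ∑ σ : Equiv.Perm (Fin 8), (2 ^ 16) ^ ex adj σ := by
  rw [perR_eq 8 _ _ (by simp [rowsOf]) (by simp)]
  refine Finset.sum_congr rfl fun σ _ => ?_
  have h := prod3 (2 ^ 144) (2 ^ 16) 1 adj σ
  rw [one_pow, mul_one] at h
  rw [ex, pow_add, pow_mul, show ((2 : ℕ) ^ 16) ^ 9 = 2 ^ 144 by norm_num, ← h]
  refine Finset.prod_congr rfl fun i _ => ?_
  have hi : (i : ℕ) < 8 := i.2
  have hs : (σ i : ℕ) < 8 := (σ i).2
  simp only [rowsOf, List.getD_eq_getElem?_getD, List.getElem?_map, List.getElem?_range hi,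
    List.getElem?_range hs, Option.map_some, Option.getD_some, Fin.ext_iff]

lemma map_ex : (univ : Finset (Equiv.Perm (Fin 8))).val.map (ex adjG) =
    (univ : Finset (Equiv.Perm (Fin 8))).val.map (ex adjH) := by
  apply map_eq_of_sum_pow univ univ (ex adjG) (ex adjH) 81 (2 ^ 16) (by norm_num)
  · intro σ _
    have := fx_le σ
    have := ed_le adjG σ
    unfold ex
    omega
  · intro σ _
    have := fx_le σ
    have := ed_le adjH σ
    unfold ex
    omega
  · rw [Finset.card_univ, Fintype.card_perm, Fintype.card_fin]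
    decide
  · rw [Finset.card_univ, Fintype.card_perm, Fintype.card_fin]
    decide
  · rw [← perR_rows, ← perR_rows]
    decide +kernel

lemma P_eq_sum (G : SimpleGraph (Fin 8)) (adj : List (List ℕ))
    (h : ∀ i j : Fin 8, G.Adj i j ↔ (j : ℕ) ∈ adj.getD (i : ℕ) []) :
    P G = ∑ σ : Equiv.Perm (Fin 8), F (ex adj σ) := by
  classical
  unfold P Matrix.permanent
  refine Finset.sum_congr rfl fun σ _ => ?_
  have e1 : F (ex adj σ) = X 0 ^ fx σ * (X 1 ^ ed adj σ * X 2 ^ (8 - fx σ - ed adj σ)) := by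
    have := ed_le adj σ
    have h1 : ex adj σ / 9 = fx σ := by unfold ex; omega
    have h2 : ex adj σ % 9 = ed adj σ := by unfold ex; omega
    unfold F
    rw [h1, h2]
  rw [e1, ← prod3 (X 0 : R) (X 1) (X 2) adj σ]
  refine Finset.prod_congr rfl fun i _ => ?_
  simp only [Matrix.add_apply, Matrix.smul_apply, Matrix.sub_apply, SimpleGraph.adjMatrix_apply,
    Matrix.one_apply, J, Matrix.of_apply, smul_eq_mul]
  by_cases h1 : i = σ i
  · rw [if_pos h1.symm, if_pos h1, if_neg]
    · ring
    · rw [← h1]; exact G.loopless.irrefl i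
  · rw [if_neg (fun e => h1 e.symm), if_neg h1]
    by_cases h2 : G.Adj i (σ i)
    · rw [if_pos h2.symm, if_pos ((h _ _).1 h2)]
      ring
    · rw [if_neg (fun e => h2 e.symm), if_neg (fun e => h2 ((h _ _).2 e))]
      ring

theorem P_eq : P G₀ = P H₀ := by
  rw [P_eq_sum G₀ adjG (fun _ _ => Iff.rfl), P_eq_sum H₀ adjH (fun _ _ => Iff.rfl)]
  have := congrArg (fun s : Multiset ℕ => (s.map F).sum) map_ex
  rw [Multiset.map_map, Multiset.map_map] at this
  exact this

/-- **Negative answer to Q1.** There are two non-isomorphic graphs on 8 vertices with the same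
permanental polynomial `P` and the same Q-polynomial. -/
theorem result : ∃ G H : SimpleGraph (Fin 8), ¬ Nonempty (G ≃g H) ∧ P G = P H ∧ Q G = Q H :=
  ⟨G₀, H₀, not_iso, P_eq, by rw [Q, Q, P_eq]⟩

end Pool.Agent.Results.MP_5909b9_co.NotComplete
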